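import Pool.Agent.J4.H67.FE.Red

set_option autoImplicit false

/-!
# Continuous functions that are additive on their graphs: the case distinction
-/

open Filter Topology

namespace Pool.Agent.J4.H67.FE

/-- discrete crossing, upwards -/
lemma cross {s : ℕ → ℝ} {c : ℝ} (h0 : s 0 ≤ c) (hb : ∃ n, c < s n) :
    ∃ n, s n ≤ c ∧ c < s (n + 1) := by
  classical
  have hn := Nat.find_spec hb
  obtain ⟨m, hm⟩ : ∃ m, Nat.find hb = m + 1 := by
    refine Nat.exists_eq_succ_of_ne_zero fun h => ?_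
    rw [h] at hn
    linarith
  refine ⟨m, ?_, hm ▸ hn⟩
  have := Nat.find_min hb (show m < Nat.find hb by omega)
  push Not at this
  exact this

/-- discrete crossing, downwards -/
lemma cross' {s : ℕ → ℝ} {c : ℝ} (h0 : c ≤ s 0) (hb : ∃ n, s n < c) :
    ∃ n, c ≤ s n ∧ s (n + 1) < c := by
  obtain ⟨n, h1, h2⟩ := cross (s := fun n => -s n) (c := -c) (by simpa using h0)
    (by obtain ⟨n, hn⟩ := hb; exact ⟨n, by simpa using hn⟩)
  exact ⟨n, by simpa using h1, by simpa using h2⟩

/-- constant sign on an interval without zeros -/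
lemma sign_const {g : ℝ → ℝ} (hg : Continuous g) {a b t : ℝ} (h : ∀ x, a < x → x < b → g x ≠ 0)
    (ha : a < t) (hb : t < b) (ht : g t < 0) : ∀ x, a < x → x < b → g x < 0 := by
  intro x hx1 hx2
  by_contra hcon
  push Not at hcon
  have hmem : (0 : ℝ) ∈ Set.uIcc (g t) (g x) := Set.mem_uIcc.2 (Or.inl ⟨ht.le, hcon⟩)
  obtain ⟨z, hz, hz0⟩ := intermediate_value_uIcc hg.continuousOn hmem
  rw [Set.mem_uIcc] at hz
  refine h z ?_ ?_ hz0
  · rcases hz with h1 | h1 <;> linarith [h1.1]
  · rcases hz with h1 | h1 <;> linarith [h1.2]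

lemma sign_const' {g : ℝ → ℝ} (hg : Continuous g) {a b t : ℝ} (h : ∀ x, a < x → x < b → g x ≠ 0)
    (ha : a < t) (hb : t < b) (ht : 0 < g t) : ∀ x, a < x → x < b → 0 < g x := by
  intro x hx1 hx2
  have := sign_const (g := fun x => -g x) hg.neg (fun x h1 h2 => neg_ne_zero.2 (h x h1 h2)) ha hb
    (by simpa using ht) x hx1 hx2
  linarith

namespace Sol

variable {f : ℝ → ℝ} (H : Sol f)
include H

/-- local positivity is global -/
lemma pos_of_local {η : ℝ} (hη : 0 < η) (h : ∀ x, 0 < x → x < η → 0 < f x) :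
    ∀ x, 0 < x → 0 < f x := by
  by_contra hcon
  push Not at hcon
  obtain ⟨c, hc, hfc⟩ := hcon
  have hcη : η ≤ c := by
    by_contra h1
    push Not at h1
    linarith [h c hc h1]
  have hK : IsCompact (Set.Icc (η / 2) c ∩ {x | f x ≤ 0}) :=
    isCompact_Icc.inter_right (isClosed_le H.cont continuous_const)
  obtain ⟨q, hq, hmin⟩ := hK.exists_isLeast ⟨c, ⟨by linarith, le_rfl⟩, hfc⟩
  have hq0 : 0 < q := by linarith [hq.1.1]
  have hposq : ∀ x, 0 < x → x < q → 0 < f x := by
    intro x hx1 hx2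
    by_cases hx : x < η
    · exact h x hx1 hx
    · by_contra h1
      push Not at h1 hx
      have := hmin ⟨⟨by linarith, by linarith [hq.1.2]⟩, h1⟩
      linarith
  have hfq : f q = 0 := by
    by_contra hne
    have hlt : f q < 0 := lt_of_le_of_ne hq.2 hne
    have h1 : 0 < f (q / 2) := hposq _ (by linarith) (by linarith)
    have hmem : (0 : ℝ) ∈ Set.uIcc (f (q / 2)) (f q) := Set.mem_uIcc.2 (Or.inr ⟨hlt.le, h1.le⟩)
    obtain ⟨z, hz, hz0⟩ := intermediate_value_uIcc H.cont.continuousOn hmem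
    rw [Set.mem_uIcc] at hz
    have hz1 : q / 2 ≤ z ∧ z ≤ q := by
      rcases hz with h2 | h2
      · exact h2
      · exact ⟨by linarith [h2.1, h2.2], by linarith [h2.1, h2.2]⟩
    rcases eq_or_lt_of_le hz1.2 with h3 | h3
    · rw [h3] at hz0
      exact hne hz0
    · linarith [hposq z (by linarith) h3]
  -- `F` maps `(0, q)` to itself
  have hF : ∀ x, 0 < x → x < q → Fm f x < q := by
    intro x hx1 hx2
    by_contra hcon'
    push Not at hcon'
    have hmem : q ∈ Set.Icc (Fm f 0) (Fm f x) := ⟨by rw [H.F0]; exact hq0.le, hcon'⟩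
    obtain ⟨z, hz, hzq⟩ := intermediate_value_Icc hx1.le H.Fc.continuousOn hmem
    have hz0 : 0 < z := by
      rcases eq_or_lt_of_le hz.1 with h1 | h1
      · rw [← h1, H.F0] at hzq
        linarith
      · exact h1
    have h1 : f z = q - z := by
      unfold Fm at hzq
      linarith
    have h2 := H.comm z
    rw [hzq, hfq] at h2
    have h3 : 0 < f (f z) := hposq _ (by linarith [hz.2]) (by linarith)
    have h4 : 0 < f z := hposq z hz0 (by linarith [hz.2])
    unfold Fm at h2
    linarith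
  have hit : ∀ y, 0 < y → y < q → ∀ n, (0 < (Fm f)^[n] y ∧ (Fm f)^[n] y < q) ∧ y ≤ (Fm f)^[n] y := by
    intro y hy1 hy2 n
    induction n with
    | zero => exact ⟨⟨hy1, hy2⟩, le_rfl⟩
    | succ n ih =>
      rw [Function.iterate_succ_apply']
      have h1 := hposq _ ih.1.1 ih.1.2
      have h2 := hF _ ih.1.1 ih.1.2
      have h3 : Fm f ((Fm f)^[n] y) = (Fm f)^[n] y + f ((Fm f)^[n] y) := rfl
      refine ⟨⟨by linarith [ih.1.1], h2⟩, by linarith [ih.2]⟩
  set x := q / 2 with hx
  have hx1 : 0 < x := by linarith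
  have hx2 : x < q := by linarith
  have hy1 := hposq x hx1 hx2
  have hy2 : f x < q := by
    have := hF x hx1 hx2
    unfold Fm at this
    linarith
  have key : ∀ n : ℕ, x + n * f x ≤ (Fm f)^[n] x := by
    intro n
    induction n with
    | zero => simp
    | succ n ih =>
      rw [Function.iterate_succ_apply']
      have h3 : Fm f ((Fm f)^[n] x) = (Fm f)^[n] x + f ((Fm f)^[n] x) := rfl
      have h4 := (hit (f x) hy1 hy2 n).2
      rw [← H.comm_iter] at h4
      push_cast
      linarith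
  obtain ⟨n, hn⟩ := exists_nat_gt (q / f x)
  rw [div_lt_iff₀ hy1] at hn
  have h1 := key n
  have h2 := (hit x hx1 hx2 n).1.2
  linarith

/-- nonnegative on the right half-line -/
lemma right_linear (h : ∀ x, 0 ≤ x → 0 ≤ f x) : ∃ a : ℝ, 0 ≤ a ∧ ∀ x, 0 ≤ x → f x = a * x := by
  by_cases hloc : ∃ η : ℝ, 0 < η ∧ ∀ x, 0 < x → x < η → 0 < f x
  · obtain ⟨η, hη, h1⟩ := hloc
    obtain ⟨a, ha, h2⟩ := H.linear_of_pos (H.pos_of_local hη h1)
    exact ⟨a, ha.le, h2⟩
  push Not at hloc
  have hz : ∀ η : ℝ, 0 < η → ∃ z, 0 < z ∧ z < η ∧ f z = 0 := by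
    intro η hη
    obtain ⟨z, h1, h2, h3⟩ := hloc η hη
    exact ⟨z, h1, h2, le_antisymm h3 (h z h1.le)⟩
  refine ⟨0, le_rfl, fun c hc => ?_⟩
  rw [zero_mul]
  by_contra hne
  have hc0 : 0 < c := lt_of_le_of_ne hc (fun h' => hne (h' ▸ H.f0))
  have hfc : 0 < f c := lt_of_le_of_ne (h c hc) (Ne.symm hne)
  -- the last zero before `c`
  have hK : IsCompact (Set.Icc 0 c ∩ {x | f x = 0}) :=
    isCompact_Icc.inter_right (isClosed_eq H.cont continuous_const)
  obtain ⟨p, hp, hmax⟩ := hK.exists_isGreatest ⟨0, ⟨le_rfl, hc⟩, H.f0⟩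
  have hpc : p < c := by
    rcases eq_or_lt_of_le hp.1.2 with h1 | h1
    · exfalso
      apply hne
      rw [← h1]
      exact hp.2
    · exact h1
  have hpos : ∀ x, p < x → x ≤ c → 0 < f x := by
    intro x hx1 hx2
    have h0x : 0 ≤ x := by linarith [hp.1.1]
    refine lt_of_le_of_ne (h x h0x) fun h1 => ?_
    have := hmax ⟨⟨h0x, hx2⟩, h1.symm⟩
    linarith
  obtain ⟨δ, hδ, hδc⟩ := Metric.continuousAt_iff.1 (H.cont.continuousAt (x := c)) (f c / 2)
    (by linarith)
  obtain ⟨z, hz0, hzlt, hfz⟩ := hz (min δ (f c / 2)) (lt_min hδ (by linarith))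
  have hzδ : z < δ := hzlt.trans_le (min_le_left _ _)
  have hzf : z < f c / 2 := hzlt.trans_le (min_le_right _ _)
  have hF : ∀ x, 0 ≤ x → x < z → Fm f x < z := by
    intro x hx1 hx2
    by_contra hcon'
    push Not at hcon'
    have hmem : z ∈ Set.Icc (Fm f 0) (Fm f x) := ⟨by rw [H.F0]; exact hz0.le, hcon'⟩
    obtain ⟨t, ht, htz⟩ := intermediate_value_Icc hx1 H.Fc.continuousOn hmem
    have h2 := H.comm t
    rw [htz, hfz] at h2
    have h3 := h t ht.1
    have h4 := h (f t) h3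
    unfold Fm at h2 htz
    have h5 : f t = 0 := by linarith
    linarith [ht.2]
  -- a point with a small value
  obtain ⟨x, hx1, hx2, hx3⟩ : ∃ x, p < x ∧ x < c ∧ f x < z := by
    obtain ⟨δ', hδ', h1⟩ := Metric.continuousAt_iff.1 (H.cont.continuousAt (x := p)) z hz0
    refine ⟨p + min (δ' / 2) ((c - p) / 2), ?_, ?_, ?_⟩
    · have : 0 < min (δ' / 2) ((c - p) / 2) := lt_min (by linarith) (by linarith)
      linarith
    · have := min_le_right (δ' / 2) ((c - p) / 2)
      linarith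
    · have h2 : 0 < min (δ' / 2) ((c - p) / 2) := lt_min (by linarith) (by linarith)
      have h3 := min_le_left (δ' / 2) ((c - p) / 2)
      have h4 := h1 (x := p + min (δ' / 2) ((c - p) / 2)) (by
        rw [Real.dist_eq, add_sub_cancel_left, abs_of_pos h2]
        linarith)
      have hp2 : f p = 0 := hp.2
      rw [Real.dist_eq, hp2, sub_zero] at h4
      exact (le_abs_self _).trans_lt h4
  have hx0 : 0 < x := by linarith [hp.1.1]
  have hy1 : 0 < f x := hpos x hx1 hx2.le
  have hit : ∀ n, f x ≤ (Fm f)^[n] (f x) ∧ (Fm f)^[n] (f x) < z := by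
    intro n
    induction n with
    | zero => exact ⟨le_rfl, hx3⟩
    | succ n ih =>
      rw [Function.iterate_succ_apply']
      have h3 : Fm f ((Fm f)^[n] (f x)) = (Fm f)^[n] (f x) + f ((Fm f)^[n] (f x)) := rfl
      have h4 := h ((Fm f)^[n] (f x)) (by linarith [ih.1])
      exact ⟨by linarith [ih.1], hF _ (by linarith [ih.1]) ih.2⟩
  have hstep : ∀ n, (Fm f)^[n + 1] x = (Fm f)^[n] x + (Fm f)^[n] (f x) := by
    intro n
    rw [Function.iterate_succ_apply', ← H.comm_iter]
    rfl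
  have hlow : ∀ n : ℕ, x + n * f x ≤ (Fm f)^[n] x := by
    intro n
    induction n with
    | zero => simp
    | succ n ih =>
      rw [hstep]
      push_cast
      linarith [(hit n).1]
  obtain ⟨n, h1, h2⟩ := cross (s := fun n => (Fm f)^[n] x) (c := c) hx2.le (by
    obtain ⟨n, hn⟩ := exists_nat_gt (c / f x)
    rw [div_lt_iff₀ hy1] at hn
    exact ⟨n, by linarith [hlow n]⟩)
  rw [hstep] at h2
  have h3 := (hit n).2
  have h4 := hδc (x := (Fm f)^[n] x) (by
    rw [Real.dist_eq, abs_lt]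
    constructor <;> linarith)
  rw [H.comm_iter, Real.dist_eq, abs_lt] at h4
  linarith [h4.1]

/-- nonnegative on the right implies nonpositive on the left -/
lemma left_nonpos (h : ∀ x, 0 ≤ x → 0 ≤ f x) : ∀ x, x ≤ 0 → f x ≤ 0 := by
  obtain ⟨a, ha, hlin⟩ := H.right_linear h
  intro x hx
  by_contra hcon
  push Not at hcon
  have hx0 : x < 0 := lt_of_le_of_ne hx (fun h' => by rw [h', H.f0] at hcon; linarith)
  set y := f x with hy
  have key : ∀ n : ℕ, (Fm f)^[n] x < 0 ∧ y ≤ f ((Fm f)^[n] x) ∧ n * y + x ≤ (Fm f)^[n] x := by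
    intro n
    induction n with
    | zero => exact ⟨hx0, le_rfl, by simp⟩
    | succ n ih =>
      obtain ⟨h1, h2, h3⟩ := ih
      set t := (Fm f)^[n] x with ht
      rw [Function.iterate_succ_apply', ← ht]
      have h4 : Fm f t = t + f t := rfl
      have h5 : f (Fm f t) = (1 + a) * f t := by
        rw [H.comm]
        unfold Fm
        rw [hlin (f t) (by linarith)]
        ring
      have h6 : Fm f t < 0 := by
        by_contra hc
        push Not at hc
        rw [hlin _ hc, h4] at h5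
        have h7 : a * t = f t := by linarith
        have h8 : a * t ≤ 0 := mul_nonpos_of_nonneg_of_nonpos ha h1.le
        linarith
      refine ⟨h6, ?_, ?_⟩
      · rw [h5]
        nlinarith
      · push_cast
        linarith
  obtain ⟨n, hn⟩ := exists_nat_gt (-x / y)
  rw [div_lt_iff₀ hcon] at hn
  have := key n
  linarith [this.1, this.2.2]

/-- the two-sided case -/
lemma two_sided (h : ∀ x, 0 ≤ x → 0 ≤ f x) :
    ∃ a b : ℝ, 0 ≤ a ∧ 0 ≤ b ∧ ∀ x, f x = if 0 ≤ x then a * x else b * x := by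
  obtain ⟨a, ha, hlin⟩ := H.right_linear h
  have hl := H.left_nonpos h
  obtain ⟨b, hb, hlin'⟩ := H.mirror.right_linear (fun x hx => by
    have := hl (-x) (by linarith)
    linarith)
  refine ⟨a, b, ha, hb, fun x => ?_⟩
  split_ifs with hx
  · exact hlin x hx
  · push Not at hx
    have := hlin' (-x) (by linarith)
    rw [neg_neg] at this
    linarith

/-- both sides negative slope: no small zeros on the right -/
lemma local_neg {x₀ x₁ : ℝ} (h0 : 0 < x₀) (hf0 : f x₀ < 0) (h1 : x₁ < 0) (hf1 : 0 < f x₁) :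
    ∃ η : ℝ, 0 < η ∧ ∀ x, 0 < x → x < η → f x < 0 := by
  have hz : ∃ η : ℝ, 0 < η ∧ ∀ x, 0 < x → x < η → f x ≠ 0 := by
    by_contra hcon
    push Not at hcon
    obtain ⟨δ, hδ, hδc⟩ := Metric.continuousAt_iff.1 (H.cont.continuousAt (x := x₀)) (-f x₀)
      (by linarith)
    obtain ⟨z, hz0, hzlt, hfz⟩ := hcon (min δ (f x₁)) (lt_min hδ hf1)
    have hzδ : z < δ := hzlt.trans_le (min_le_left _ _)
    have hzf : z < f x₁ := hzlt.trans_le (min_le_right _ _)
    have hmem : z ∈ Set.Icc (f 0) (f x₁) := ⟨by rw [H.f0]; exact hz0.le, hzf.le⟩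
    obtain ⟨x, hx, hxz⟩ := intermediate_value_Icc' h1.le H.cont.continuousOn hmem
    have hs : ∀ n : ℕ, f (x + n * z) = z := by
      intro n
      induction n with
      | zero => simpa using hxz
      | succ n ih =>
        have := H.eq (x + n * z)
        rw [ih, hfz, add_zero] at this
        have e : x + ((n + 1 : ℕ) : ℝ) * z = x + n * z + z := by
          push_cast
          ring
        rw [e]
        exact this
    obtain ⟨n, h2, h3⟩ := cross (s := fun n : ℕ => x + n * z) (c := x₀)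
      (by simp; linarith [hx.2]) (by
        obtain ⟨n, hn⟩ := exists_nat_gt ((x₀ - x) / z)
        rw [div_lt_iff₀ hz0] at hn
        exact ⟨n, by linarith⟩)
    push_cast at h3
    have h4 := hδc (x := x + n * z) (by
      rw [Real.dist_eq, abs_lt]
      constructor <;> linarith)
    rw [hs, Real.dist_eq, abs_lt] at h4
    linarith [h4.2]
  obtain ⟨η, hη, hne⟩ := hz
  refine ⟨η, hη, ?_⟩
  rcases lt_or_gt_of_ne (hne (η / 2) (by linarith) (by linarith)) with h2 | h2
  · exact sign_const H.cont hne (by linarith) (by linarith) h2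
  · have := H.pos_of_local hη (sign_const' H.cont hne (by linarith) (by linarith) h2) x₀ h0
    linarith

lemma F_symm {y : ℝ} (h : Fm f y = 0) : Fm f (-y) = 0 := by
  have h1 : f y = -y := by unfold Fm at h; linarith
  rw [← h1, ← H.comm, h, H.f0]

lemma F_step {x y : ℝ} (hx : Fm f x = y) (hy : Fm f y = 0) : Fm f (y - x) = -y := by
  have h1 : f x = y - x := by unfold Fm at hx; linarith
  have h2 : f y = -y := by unfold Fm at hy; linarith
  rw [← h1, ← H.comm, hx, h2]

lemma F_step2 {x y : ℝ} (hx : Fm f x = y) (hy : Fm f y = 0) (k : ℕ) :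
    Fm f (x - 2 * k * y) = y ∧ Fm f ((2 * k + 1) * y - x) = -y := by
  have h1 : Fm f (x - 2 * k * y) = y := by
    induction k with
    | zero => simpa using hx
    | succ k ih =>
      have h2 := H.F_step ih hy
      have h3 := H.F_step h2 (H.F_symm hy)
      rw [neg_neg] at h3
      have e : x - 2 * ((k + 1 : ℕ) : ℝ) * y = -y - (y - (x - 2 * k * y)) := by
        push_cast
        ring
      rw [e]
      exact h3
  refine ⟨h1, ?_⟩
  have h2 := H.F_step h1 hy
  have e : (2 * (k : ℝ) + 1) * y - x = y - (x - 2 * k * y) := by ring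
  rw [e]
  exact h2

/-- if `x + f x` has small zeros, it vanishes on the right -/
lemma F_zero_right (h : ∀ η : ℝ, 0 < η → ∃ y, y ≠ 0 ∧ |y| < η ∧ Fm f y = 0) {c : ℝ} (hc : 0 < c) :
    Fm f c = 0 := by
  by_contra hne
  have hFc : 0 < |Fm f c| := abs_pos.2 hne
  obtain ⟨δ, hδ, hδc⟩ := Metric.continuousAt_iff.1 (H.Fc.continuousAt (x := c)) (|Fm f c| / 2)
    (by linarith)
  obtain ⟨y₀, hy0, hylt, hFy⟩ := h (min (min (δ / 2) (|Fm f c| / 2)) c)
    (lt_min (lt_min (by linarith) (by linarith)) hc)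
  have hy1 : |y₀| < δ / 2 := hylt.trans_le ((min_le_left _ _).trans (min_le_left _ _))
  have hy2 : |y₀| < |Fm f c| / 2 := hylt.trans_le ((min_le_left _ _).trans (min_le_right _ _))
  have hy3 : |y₀| < c := hylt.trans_le (min_le_right _ _)
  have hpos := abs_pos.2 hy0
  have hY : Fm f |y₀| = 0 ∧ Fm f (-|y₀|) = 0 := by
    rcases abs_choice y₀ with h1 | h1
    · rw [h1]
      exact ⟨hFy, H.F_symm hFy⟩
    · rw [h1, neg_neg]
      exact ⟨H.F_symm hFy, hFy⟩
  rcases lt_or_gt_of_ne hne with hlt | hgt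
  · -- `F c < 0`
    rw [abs_of_neg hlt] at hy2 hδc
    have hmem : -|y₀| ∈ Set.Icc (Fm f c) (Fm f 0) := by
      rw [H.F0]
      exact ⟨by linarith, by linarith⟩
    obtain ⟨x, hx, hxy⟩ := intermediate_value_Icc' hc.le H.Fc.continuousOn hmem
    have hs := fun k => (H.F_step2 hxy hY.2 k).1
    obtain ⟨n, h2, h3⟩ := cross (s := fun n : ℕ => x - 2 * n * (-|y₀|)) (c := c)
      (by simp; linarith [hx.2]) (by
        obtain ⟨n, hn⟩ := exists_nat_gt ((c - x) / |y₀|)
        rw [div_lt_iff₀ hpos] at hn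
        exact ⟨n, by nlinarith [hx.1]⟩)
    push_cast at h3
    have h4 := hδc (x := x - 2 * n * (-|y₀|)) (by
      rw [Real.dist_eq, abs_lt]
      constructor <;> linarith)
    rw [hs, Real.dist_eq, abs_lt] at h4
    linarith [h4.1, h4.2]
  · rw [abs_of_pos hgt] at hy2 hδc
    have hmem : |y₀| ∈ Set.Icc (Fm f 0) (Fm f c) := by
      rw [H.F0]
      exact ⟨by linarith, by linarith⟩
    obtain ⟨x, hx, hxy⟩ := intermediate_value_Icc hc.le H.Fc.continuousOn hmem
    have hs := fun k => (H.F_step2 hxy hY.1 k).2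
    obtain ⟨n, h2, h3⟩ := cross (s := fun n : ℕ => (2 * n + 1) * |y₀| - x) (c := c)
      (by simp; linarith [hx.1]) (by
        obtain ⟨n, hn⟩ := exists_nat_gt ((c + x) / |y₀|)
        rw [div_lt_iff₀ hpos] at hn
        exact ⟨n, by nlinarith [hx.1]⟩)
    push_cast at h3
    have h4 := hδc (x := (2 * n + 1) * |y₀| - x) (by
      rw [Real.dist_eq, abs_lt]
      constructor <;> linarith)
    rw [hs, Real.dist_eq, abs_lt] at h4
    linarith [h4.1, h4.2]

lemma Fm_mirror (x : ℝ) : Fm (fun x => -f (-x)) x = -Fm f (-x) := by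
  unfold Fm
  ring

lemma F_zero_all (h : ∀ η : ℝ, 0 < η → ∃ y, y ≠ 0 ∧ |y| < η ∧ Fm f y = 0) (c : ℝ) :
    Fm f c = 0 := by
  rcases lt_trichotomy c 0 with hc | hc | hc
  · have := H.mirror.F_zero_right (fun η hη => by
      obtain ⟨y, h1, h2, h3⟩ := h η hη
      refine ⟨-y, neg_ne_zero.2 h1, by rwa [abs_neg], ?_⟩
      rw [H.Fm_mirror, neg_neg, h3, neg_zero]) (c := -c) (by linarith)
    rw [H.Fm_mirror, neg_neg] at this
    linarith
  · rw [hc, H.F0]
  · exact H.F_zero_right h hc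

end Sol

end Pool.Agent.J4.H67.FE
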