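import Mathlib

set_option autoImplicit false

/-!
# Continuous functions that are additive on their graphs: the expanding alternating case

`f` is continuous, `f (x + f x) = f x + f (f x)`, and `x` and `x + f x` have opposite signs.
Then `f` is linear.
-/

open Filter Topology

namespace Pool.Agent.J4.H67.FE

/-- `x + f x` -/
def Fm (f : ℝ → ℝ) (x : ℝ) : ℝ := x + f x

/-- sum of binomials -/
lemma sum_choose_succ (a : ℕ → ℝ) (N : ℕ) :
    ∑ j ∈ Finset.range (N + 2), ((N + 1).choose j : ℝ) * a j =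
      ∑ j ∈ Finset.range (N + 1), (N.choose j : ℝ) * (a j + a (j + 1)) := by
  rw [Finset.sum_range_succ']
  have h1 : ∑ j ∈ Finset.range (N + 1), ((N + 1).choose (j + 1) : ℝ) * a (j + 1) =
      ∑ j ∈ Finset.range (N + 1), (N.choose j : ℝ) * a (j + 1) +
      ∑ j ∈ Finset.range (N + 1), (N.choose (j + 1) : ℝ) * a (j + 1) := by
    rw [← Finset.sum_add_distrib]
    refine Finset.sum_congr rfl fun j _ => ?_
    rw [Nat.choose_succ_succ]
    push_cast
    ring
  have h2 : ∑ j ∈ Finset.range (N + 1), (N.choose (j + 1) : ℝ) * a (j + 1) + (N.choose 0 : ℝ) * a 0 =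
      ∑ j ∈ Finset.range (N + 1), (N.choose j : ℝ) * a j := by
    rw [← Finset.sum_range_succ' (fun j => (N.choose j : ℝ) * a j) (N + 1)]
    rw [Finset.sum_range_succ]
    simp
  simp only [mul_add]
  rw [Finset.sum_add_distrib, h1, ← h2]
  simp
  ring

/-- the inequality of Cauchy for the binomial sums -/
lemma cauchy_choose (w : ℕ → ℝ) (hw : ∀ i, 0 ≤ w i) (n : ℕ) :
    (n + 2 : ℝ) * (∑ j ∈ Finset.range (n + 2), ((n + 1).choose j : ℝ) * w (j + 1)) ^ 2 ≤
      (∑ j ∈ Finset.range (n + 3), ((n + 2).choose j : ℝ) * w j) *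
      ((n + 1 : ℝ) * (∑ j ∈ Finset.range (n + 1), (n.choose j : ℝ) * w (j + 2)) +
        ∑ j ∈ Finset.range (n + 2), ((n + 1).choose j : ℝ) * w (j + 1)) := by
  set A := ∑ j ∈ Finset.range (n + 3), ((n + 2).choose j : ℝ) * w j with hA
  set B := ∑ j ∈ Finset.range (n + 2), ((n + 1).choose j : ℝ) * w (j + 1) with hB
  set C := ∑ j ∈ Finset.range (n + 1), (n.choose j : ℝ) * w (j + 2) with hC
  -- first moment
  have h1 : ∑ j ∈ Finset.range (n + 3), (j : ℝ) * (((n + 2).choose j : ℝ) * w j) = (n + 2) * B := by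
    rw [Finset.sum_range_succ', hB, Finset.mul_sum]
    simp only [Nat.cast_zero, zero_mul, add_zero]
    refine Finset.sum_congr rfl fun j _ => ?_
    have := Nat.add_one_mul_choose_eq (n + 1) j
    have h' : ((n + 1 + 1 : ℕ) : ℝ) * ((n + 1).choose j : ℝ) =
        ((n + 1 + 1).choose (j + 1) : ℝ) * ((j + 1 : ℕ) : ℝ) := by exact_mod_cast this
    push_cast at h' ⊢
    have h3 : ((n + 2).choose (j + 1) : ℝ) = ((n + 1 + 1).choose (j + 1) : ℝ) := rfl
    rw [h3]
    linear_combination (-(w (j + 1))) * h'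
  -- second moment
  have h2 : ∑ j ∈ Finset.range (n + 3), ((j : ℝ) * ((j : ℝ) - 1)) * (((n + 2).choose j : ℝ) * w j) =
      (n + 2) * (n + 1) * C := by
    rw [Finset.sum_range_succ', Finset.sum_range_succ', hC, Finset.mul_sum]
    simp only [Nat.cast_zero, zero_mul, add_zero, Nat.cast_add, Nat.cast_one, zero_add, sub_self,
      mul_zero]
    refine Finset.sum_congr rfl fun j _ => ?_
    have e1 := Nat.add_one_mul_choose_eq (n + 1) (j + 1)
    have e2 := Nat.add_one_mul_choose_eq n j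
    have h' : ((n + 1 + 1 : ℕ) : ℝ) * ((n + 1).choose (j + 1) : ℝ) =
        ((n + 1 + 1).choose (j + 1 + 1) : ℝ) * ((j + 1 + 1 : ℕ) : ℝ) := by exact_mod_cast e1
    have h'' : ((n + 1 : ℕ) : ℝ) * (n.choose j : ℝ) =
        ((n + 1).choose (j + 1) : ℝ) * ((j + 1 : ℕ) : ℝ) := by exact_mod_cast e2
    push_cast at h' h'' ⊢
    have h3 : ((n + 2).choose (j + 1 + 1) : ℝ) = ((n + 1 + 1).choose (j + 1 + 1) : ℝ) := rfl
    rw [h3]
    have h4 : w (j + 1 + 1) = w (j + 2) := rfl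
    rw [h4]
    linear_combination (-(w (j + 2)) * (j + 1)) * h' + (-(w (j + 2)) * (n + 2)) * h''
  have h3 : (∑ j ∈ Finset.range (n + 3), (j : ℝ) * (((n + 2).choose j : ℝ) * w j)) ^ 2 ≤
      (∑ j ∈ Finset.range (n + 3), ((n + 2).choose j : ℝ) * w j) *
      (∑ j ∈ Finset.range (n + 3), (j : ℝ) ^ 2 * (((n + 2).choose j : ℝ) * w j)) := by
    apply Finset.sum_sq_le_sum_mul_sum_of_sq_le_mul
    · intro i _
      exact mul_nonneg (Nat.cast_nonneg _) (hw i)
    · intro i _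
      exact mul_nonneg (sq_nonneg _) (mul_nonneg (Nat.cast_nonneg _) (hw i))
    · intro i _
      apply le_of_eq
      ring
  have h4 : ∑ j ∈ Finset.range (n + 3), (j : ℝ) ^ 2 * (((n + 2).choose j : ℝ) * w j) =
      (n + 2) * (n + 1) * C + (n + 2) * B := by
    rw [← h1, ← h2, ← Finset.sum_add_distrib]
    refine Finset.sum_congr rfl fun j _ => ?_
    ring
  rw [h1, h4, ← hA] at h3
  have hn : (0 : ℝ) < n + 2 := by positivity
  have h5 : (n + 2 : ℝ) * ((n + 2 : ℝ) * B ^ 2) ≤ (n + 2) * (A * ((n + 1) * C + B)) := by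
    nlinarith [h3]
  exact le_of_mul_le_mul_left h5 hn

section core

variable {f : ℝ → ℝ}

/-- the hypotheses of the expanding alternating case -/
structure Alt (f : ℝ → ℝ) : Prop where
  cont : Continuous f
  eq : ∀ x, f (x + f x) = f x + f (f x)
  sgn : ∀ x, x ≠ 0 → x * (x + f x) < 0

lemma map_zero' (h : ∀ x, f (x + f x) = f x + f (f x)) : f 0 = 0 := by
  have := h 0
  rw [zero_add] at this
  linarith

lemma comm' (h : ∀ x, f (x + f x) = f x + f (f x)) (x : ℝ) : f (Fm f x) = Fm f (f x) := h x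

lemma Fm_zero (h : ∀ x, f (x + f x) = f x + f (f x)) : Fm f 0 = 0 := by
  unfold Fm
  rw [map_zero' h, add_zero]

lemma Fm_cont (h : Continuous f) : Continuous (Fm f) := continuous_id.add h

namespace Alt

variable (H : Alt f)
include H

lemma f0 : f 0 = 0 := map_zero' H.eq

lemma F0 : Fm f 0 = 0 := Fm_zero H.eq

lemma Fc : Continuous (Fm f) := Fm_cont H.cont

lemma comm (x : ℝ) : f (Fm f x) = Fm f (f x) := H.eq x

lemma F_ne {x : ℝ} (hx : x ≠ 0) : Fm f x ≠ 0 := by
  intro h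
  have := H.sgn x hx
  unfold Fm at h
  rw [h] at this
  simp at this

lemma F_neg {x : ℝ} (hx : 0 < x) : Fm f x < 0 := by
  have := H.sgn x hx.ne'
  unfold Fm
  by_contra hcon
  push Not at hcon
  have := mul_nonneg hx.le hcon
  linarith

lemma F_pos {x : ℝ} (hx : x < 0) : 0 < Fm f x := by
  have := H.sgn x hx.ne
  unfold Fm
  by_contra hcon
  push Not at hcon
  have := mul_nonneg_of_nonpos_of_nonpos hx.le hcon
  linarith

lemma abs_f (x : ℝ) : |f x| = |x| + |Fm f x| := by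
  rcases lt_trichotomy x 0 with hx | hx | hx
  · have h := H.F_pos hx
    have h' : f x = Fm f x - x := by unfold Fm; ring
    rw [abs_of_neg hx, abs_of_pos h, h', abs_of_pos (by linarith)]
    ring
  · subst hx
    rw [H.f0, H.F0]
    simp
  · have h := H.F_neg hx
    have h' : f x = Fm f x - x := by unfold Fm; ring
    rw [abs_of_pos hx, abs_of_neg h, h', abs_of_neg (by linarith)]
    ring

lemma f_neg {x : ℝ} (hx : 0 < x) : f x < 0 := by
  have h := H.F_neg hx
  unfold Fm at h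
  linarith

lemma f_pos {x : ℝ} (hx : x < 0) : 0 < f x := by
  have h := H.F_pos hx
  unfold Fm at h
  linarith

lemma f_ne {x : ℝ} (hx : x ≠ 0) : f x ≠ 0 := by
  rcases lt_or_gt_of_ne hx with h | h
  · exact (H.f_pos h).ne'
  · exact (H.f_neg h).ne

lemma comm_iter (n : ℕ) (x : ℝ) : Fm f (f^[n] x) = f^[n] (Fm f x) := by
  induction n with
  | zero => rfl
  | succ n ih => rw [Function.iterate_succ_apply', Function.iterate_succ_apply', ← H.comm, ih]

lemma comm_iter' (n : ℕ) (x : ℝ) : (Fm f)^[n] (f x) = f ((Fm f)^[n] x) := by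
  induction n with
  | zero => rfl
  | succ n ih => rw [Function.iterate_succ_apply', Function.iterate_succ_apply', H.comm, ih]

lemma abs_iter (N : ℕ) (z : ℝ) :
    |f^[N] z| = ∑ j ∈ Finset.range (N + 1), (N.choose j : ℝ) * |(Fm f)^[j] z| := by
  induction N generalizing z with
  | zero => simp
  | succ N ih =>
    rw [Function.iterate_succ_apply, ih, sum_choose_succ]
    refine Finset.sum_congr rfl fun j _ => ?_
    rw [H.comm_iter', H.abs_f, Function.iterate_succ_apply']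

lemma surj : Function.Surjective f := by
  have h1 : Tendsto f atTop atBot := by
    refine tendsto_atBot_mono' atTop ?_ tendsto_neg_atTop_atBot
    filter_upwards [eventually_gt_atTop 0] with x hx
    have := H.F_neg hx
    unfold Fm at this
    linarith
  have h2 : Tendsto f atBot atTop := by
    refine tendsto_atTop_mono' atBot ?_ tendsto_neg_atBot_atTop
    filter_upwards [eventually_lt_atBot 0] with x hx
    have := H.F_pos hx
    unfold Fm at this
    linarith
  exact H.cont.surjective' h2 h1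

lemma surj_iter (n : ℕ) : Function.Surjective (f^[n]) := H.surj.iterate n

/-- log-convexity -/
lemma logconv (y : ℝ) : |Fm f y| ^ 2 ≤ |y| * |Fm f (Fm f y)| := by
  set A := |f (f y)| with hA
  set B := |Fm f (f y)| with hB
  set C := |Fm f (Fm f y)| with hC
  have key : ∀ n : ℕ, (n + 2 : ℝ) * B ^ 2 ≤ A * ((n + 1) * C + B) := by
    intro n
    obtain ⟨z, hz⟩ := H.surj_iter n y
    have h := cauchy_choose (fun i => |(Fm f)^[i] z|) (fun i => abs_nonneg _) n
    have e1 : ∑ j ∈ Finset.range (n + 3), ((n + 2).choose j : ℝ) * |(Fm f)^[j] z| = A := by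
      rw [← H.abs_iter (n + 2) z, hA, ← hz]
      rw [show n + 2 = (n + 1) + 1 from rfl, Function.iterate_succ_apply', Function.iterate_succ_apply']
    have e2 : ∑ j ∈ Finset.range (n + 2), ((n + 1).choose j : ℝ) * |(Fm f)^[j + 1] z| = B := by
      have : ∑ j ∈ Finset.range (n + 2), ((n + 1).choose j : ℝ) * |(Fm f)^[j + 1] z| =
          ∑ j ∈ Finset.range (n + 1 + 1), ((n + 1).choose j : ℝ) * |(Fm f)^[j] (Fm f z)| := by
        refine Finset.sum_congr rfl fun j _ => ?_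
        rw [Function.iterate_succ_apply]
      rw [this, ← H.abs_iter (n + 1), hB, ← hz, ← H.comm_iter, Function.iterate_succ_apply']
    have e3 : ∑ j ∈ Finset.range (n + 1), (n.choose j : ℝ) * |(Fm f)^[j + 2] z| = C := by
      have : ∑ j ∈ Finset.range (n + 1), (n.choose j : ℝ) * |(Fm f)^[j + 2] z| =
          ∑ j ∈ Finset.range (n + 1), (n.choose j : ℝ) * |(Fm f)^[j] (Fm f (Fm f z))| := by
        refine Finset.sum_congr rfl fun j _ => ?_
        rw [show j + 2 = (j + 1) + 1 from rfl, Function.iterate_succ_apply,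
          Function.iterate_succ_apply]
      rw [this, ← H.abs_iter n, hC, ← hz, ← H.comm_iter, ← H.comm_iter]
    simp only [e1, e2, e3] at h
    exact h
  -- let `n → ∞`
  have hBC : B ^ 2 ≤ A * C := by
    by_contra hcon
    push Not at hcon
    obtain ⟨n, hn⟩ := exists_nat_gt ((A * B) / (B ^ 2 - A * C))
    have hpos : 0 < B ^ 2 - A * C := by linarith
    rw [div_lt_iff₀ hpos] at hn
    have := key n
    have hA0 : 0 ≤ A := abs_nonneg _
    have hC0 : 0 ≤ C := abs_nonneg _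
    have hB0 : 0 ≤ B := abs_nonneg _
    nlinarith
  have hB' : B = |Fm f y| + C := by
    rw [hB, ← H.comm, H.abs_f]
  have hA' : A = |y| + 2 * |Fm f y| + C := by
    rw [hA, H.abs_f, H.abs_f, ← H.comm, H.abs_f]
    ring
  rw [hA', hB'] at hBC
  nlinarith

end Alt

end core

/-- the ratio `|x + f x| / |x|` -/
noncomputable def rr (f : ℝ → ℝ) (x : ℝ) : ℝ := |Fm f x| / |x|

namespace Alt

variable {f : ℝ → ℝ} (H : Alt f)
include H

lemma rr_pos {x : ℝ} (hx : x ≠ 0) : 0 < rr f x :=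
  div_pos (abs_pos.2 (H.F_ne hx)) (abs_pos.2 hx)

lemma absF {x : ℝ} (hx : x ≠ 0) : |Fm f x| = rr f x * |x| := by
  unfold rr
  rw [div_mul_cancel₀ _ (abs_pos.2 hx).ne']

lemma absf {x : ℝ} (hx : x ≠ 0) : |f x| = (1 + rr f x) * |x| := by
  rw [H.abs_f, H.absF hx]
  ring

lemma rr_id {x : ℝ} (hx : x ≠ 0) :
    rr f (f x) * (1 + rr f x) = rr f x * (1 + rr f (Fm f x)) := by
  have h1 : |Fm f (f x)| = |Fm f x| + |Fm f (Fm f x)| := by
    rw [← H.comm, H.abs_f]
  rw [H.absF (H.f_ne hx), H.absF (H.F_ne hx), H.absF hx, H.absf hx] at h1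
  have hx' : 0 < |x| := abs_pos.2 hx
  have h2 : |x| * (rr f (f x) * (1 + rr f x)) = |x| * (rr f x * (1 + rr f (Fm f x))) := by
    linear_combination h1
  exact mul_left_cancel₀ hx'.ne' h2

lemma rr_F {x : ℝ} (hx : x ≠ 0) : rr f x ≤ rr f (Fm f x) := by
  have h := H.logconv x
  rw [H.absF (H.F_ne hx), H.absF hx] at h
  have hx' : 0 < |x| := abs_pos.2 hx
  have hr := H.rr_pos hx
  have h2 : (|x| ^ 2 * rr f x) * rr f x ≤ (|x| ^ 2 * rr f x) * rr f (Fm f x) := by nlinarith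
  exact le_of_mul_le_mul_left h2 (by positivity)

lemma rr_f {x : ℝ} (hx : x ≠ 0) : rr f x ≤ rr f (f x) := by
  have h := H.rr_id hx
  have h1 := H.rr_F hx
  have hr := H.rr_pos hx
  have h2 : rr f x * (1 + rr f x) ≤ rr f (f x) * (1 + rr f x) := by
    rw [h]
    exact mul_le_mul_of_nonneg_left (by linarith) hr.le
  exact le_of_mul_le_mul_right h2 (by linarith)

lemma rr_f_F {x : ℝ} (hx : x ≠ 0) : rr f (f x) ≤ rr f (Fm f x) := by
  have h := H.rr_id hx
  have h1 := H.rr_F hx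
  have hr := H.rr_pos hx
  have h2 : rr f (f x) * (1 + rr f x) ≤ rr f (Fm f x) * (1 + rr f x) := by
    rw [h]
    nlinarith
  exact le_of_mul_le_mul_right h2 (by linarith)

lemma abs_lt_f {x : ℝ} (hx : x ≠ 0) : |x| < |f x| := by
  rw [H.abs_f]
  have := abs_pos.2 (H.F_ne hx)
  linarith

lemma F_lt_f {x : ℝ} (hx : x ≠ 0) : |Fm f x| < |f x| := by
  rw [H.abs_f]
  have := abs_pos.2 hx
  linarith

lemma ne_of_f {z y : ℝ} (h : f z = y) (hy : y ≠ 0) : z ≠ 0 := by
  rintro rfl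
  exact hy (h ▸ H.f0)

lemma ne_of_F {z y : ℝ} (h : Fm f z = y) (hy : y ≠ 0) : z ≠ 0 := by
  rintro rfl
  exact hy (h ▸ H.F0)

lemma iter_ne {x : ℝ} (hx : x ≠ 0) (n : ℕ) : f^[n] x ≠ 0 := by
  induction n with
  | zero => exact hx
  | succ n ih =>
    rw [Function.iterate_succ_apply']
    exact H.f_ne ih

lemma abs_le_iter (x : ℝ) (n : ℕ) : |x| ≤ |f^[n] x| := by
  induction n with
  | zero => exact le_rfl
  | succ n ih =>
    rw [Function.iterate_succ_apply', H.abs_f]
    have := abs_nonneg (Fm f (f^[n] x))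
    linarith

lemma iter_large (x : ℝ) (n : ℕ) : n * |Fm f x| ≤ |f^[n] x| := by
  induction n with
  | zero => simp
  | succ n ih =>
    rw [Function.iterate_succ_apply', H.abs_f, H.comm_iter]
    have := H.abs_le_iter (Fm f x) n
    push_cast
    linarith

/-- `F` takes large values of the given sign -/
lemma F_large (B : ℝ) : (∃ t, B ≤ Fm f t) ∧ ∃ t, Fm f t ≤ -B := by
  have h1 : Fm f (Fm f 1) ≠ 0 := H.F_ne (H.F_ne one_ne_zero)
  obtain ⟨n, hn⟩ := exists_nat_gt (|B| / |Fm f (Fm f 1)|)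
  rw [div_lt_iff₀ (abs_pos.2 h1)] at hn
  have h2 := H.iter_large (Fm f 1) n
  have h3 : |B| ≤ |Fm f (f^[n] 1)| := by
    rw [H.comm_iter]
    linarith
  set t := f^[n] 1 with ht
  have h4 : |B| ≤ |Fm f (f t)| := by
    rw [← H.comm, H.abs_f]
    have := abs_nonneg (Fm f (Fm f t))
    linarith
  have ht0 : t ≠ 0 := H.iter_ne one_ne_zero n
  have hB := le_abs_self B
  have hB' := neg_abs_le B
  rcases lt_or_gt_of_ne ht0 with h | h
  · have a1 := H.F_pos h
    have a2 := H.F_neg (H.f_pos h)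
    rw [abs_of_pos a1] at h3
    rw [abs_of_neg a2] at h4
    exact ⟨⟨t, by linarith⟩, ⟨f t, by linarith⟩⟩
  · have a1 := H.F_neg h
    have a2 := H.F_pos (H.f_neg h)
    rw [abs_of_neg a1] at h3
    rw [abs_of_pos a2] at h4
    exact ⟨⟨f t, by linarith⟩, ⟨t, by linarith⟩⟩

/-- small values have bounded preimages under `F` -/
lemma F_pre : ∃ R : ℝ, 0 ≤ R ∧ ∀ y : ℝ, |y| ≤ 1 → ∃ z, |z| ≤ R ∧ Fm f z = y := by
  obtain ⟨⟨t, ht⟩, ⟨s, hs⟩⟩ := H.F_large 1
  refine ⟨max |t| |s|, le_max_of_le_left (abs_nonneg _), fun y hy => ?_⟩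
  obtain ⟨hy1, hy2⟩ := abs_le.1 hy
  rcases le_total 0 y with h | h
  · have := intermediate_value_uIcc (a := 0) (b := t) H.Fc.continuousOn
    obtain ⟨z, hz, hz'⟩ := this (show y ∈ Set.uIcc (Fm f 0) (Fm f t) by
      rw [H.F0]
      exact Set.mem_uIcc.2 (Or.inl ⟨h, by linarith⟩))
    refine ⟨z, le_max_of_le_left ?_, hz'⟩
    have := Set.abs_sub_left_of_mem_uIcc hz
    simpa using this
  · have := intermediate_value_uIcc (a := 0) (b := s) H.Fc.continuousOn
    obtain ⟨z, hz, hz'⟩ := this (show y ∈ Set.uIcc (Fm f 0) (Fm f s) by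
      rw [H.F0]
      exact Set.mem_uIcc.2 (Or.inr ⟨by linarith, h⟩))
    refine ⟨z, le_max_of_le_right ?_, hz'⟩
    have := Set.abs_sub_left_of_mem_uIcc hz
    simpa using this

end Alt

/-- a shell -/
def Sh (a b : ℝ) : Set ℝ := {y | a ≤ |y| ∧ |y| ≤ b}

lemma Sh_compact (a b : ℝ) : IsCompact (Sh a b) := by
  have h1 : Sh a b = Set.Icc (-b) b ∩ {y | a ≤ |y|} := by
    ext y
    simp only [Sh, Set.mem_setOf_eq, Set.mem_inter_iff, Set.mem_Icc, abs_le]
    tauto
  rw [h1]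
  exact isCompact_Icc.inter_right (isClosed_le continuous_const continuous_abs)

/-- descent to the unit ball inside a closed set -/
lemma descend {A : Set ℝ} (hA : IsClosed A)
    (hd : ∀ y ∈ A, y ≠ 0 → ∃ y' ∈ A, y' ≠ 0 ∧ |y'| < |y|) {x : ℝ} (hx : x ∈ A) (hx0 : x ≠ 0) :
    ∃ y ∈ A, y ≠ 0 ∧ |y| ≤ 1 := by
  by_contra hcon
  push Not at hcon
  have hK : IsCompact (Sh 1 |x| ∩ A) := (Sh_compact _ _).inter_right hA
  have hne : (Sh 1 |x| ∩ A).Nonempty := ⟨x, ⟨(hcon x hx hx0).le, le_rfl⟩, hx⟩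
  obtain ⟨y, hy, hmin⟩ := hK.exists_isMinOn hne continuous_abs.continuousOn
  have hy0 : y ≠ 0 := by
    rintro rfl
    have := hy.1.1
    simp at this
    linarith
  obtain ⟨y', hy', hy'0, hlt⟩ := hd y hy.2 hy0
  have h1 := hcon y' hy' hy'0
  have h2 : y' ∈ Sh 1 |x| ∩ A := ⟨⟨h1.le, hlt.le.trans hy.1.2⟩, hy'⟩
  have := hmin h2
  simp only [Set.mem_setOf_eq] at this
  linarith

/-- ascent to a shell inside a closed set -/
lemma ascend {A : Set ℝ} (hA : IsClosed A) {B : ℝ}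
    (hu : ∀ y ∈ A, y ≠ 0 → |y| ≤ 1 → ∃ y' ∈ A, |y| < |y'| ∧ |y'| ≤ B) {x : ℝ} (hx : x ∈ A)
    (hx0 : x ≠ 0) (hx1 : |x| ≤ 1) : ∃ y ∈ A, y ∈ Sh 1 B := by
  have hK : IsCompact (Sh |x| 1 ∩ A) := (Sh_compact _ _).inter_right hA
  have hne : (Sh |x| 1 ∩ A).Nonempty := ⟨x, ⟨le_rfl, hx1⟩, hx⟩
  obtain ⟨y, hy, hmax⟩ := hK.exists_isMaxOn hne continuous_abs.continuousOn
  have hy0 : y ≠ 0 := by
    rintro rfl
    have := hy.1.1
    rw [abs_zero] at this
    have := abs_pos.2 hx0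
    linarith
  obtain ⟨y', hy', hlt, hB⟩ := hu y hy.2 hy0 hy.1.2
  refine ⟨y', hy', ?_, hB⟩
  by_contra hcon
  push Not at hcon
  have h2 : y' ∈ Sh |x| 1 ∩ A := ⟨⟨hy.1.1.trans hlt.le, hcon.le⟩, hy'⟩
  have := hmax h2
  simp only [Set.mem_setOf_eq] at this
  linarith

namespace Alt

variable {f : ℝ → ℝ} (H : Alt f)
include H

lemma rr_le_iff {y : ℝ} (hy : y ≠ 0) (R : ℝ) : R ≤ rr f y ↔ R * |y| ≤ |Fm f y| := by
  unfold rr
  rw [le_div_iff₀ (abs_pos.2 hy)]

lemma le_rr_iff {y : ℝ} (hy : y ≠ 0) (R : ℝ) : rr f y ≤ R ↔ |Fm f y| ≤ R * |y| := by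
  unfold rr
  rw [div_le_iff₀ (abs_pos.2 hy)]

lemma rr_contOn (B : ℝ) : ContinuousOn (rr f) (Sh 1 B) := by
  unfold rr
  apply ContinuousOn.div
  · exact (H.Fc.abs).continuousOn
  · exact continuous_abs.continuousOn
  · intro x hx h
    have := hx.1
    rw [h] at this
    linarith

/-- the supremum of the ratio is attained -/
lemma exists_max : ∃ p : ℝ, p ≠ 0 ∧ ∀ x, x ≠ 0 → rr f x ≤ rr f p := by
  obtain ⟨q, hq, hqmax⟩ := (isCompact_Icc (a := (-1 : ℝ)) (b := 1)).exists_isMaxOn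
    ⟨0, by simp⟩ (H.cont.abs).continuousOn
  set B := |f q| with hB
  have key : ∀ x, x ≠ 0 → ∃ y ∈ Sh 1 B, rr f x ≤ rr f y := by
    intro x hx
    set A : Set ℝ := {y | rr f x * |y| ≤ |Fm f y|} with hAdef
    have hA : IsClosed A := isClosed_le (continuous_const.mul continuous_abs) H.Fc.abs
    have hxA : x ∈ A := (H.rr_le_iff hx _).1 le_rfl
    have hd : ∀ y ∈ A, y ≠ 0 → ∃ y' ∈ A, y' ≠ 0 ∧ |y'| < |y| := by
      intro y hy hy0
      obtain ⟨z, hz⟩ := H.surj y
      have hz0 := H.ne_of_f hz hy0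
      refine ⟨Fm f z, ?_, H.F_ne hz0, ?_⟩
      · apply (H.rr_le_iff (H.F_ne hz0) _).1
        have h1 := H.rr_f_F hz0
        rw [hz] at h1
        exact ((H.rr_le_iff hy0 _).2 hy).trans h1
      · have := H.F_lt_f hz0
        rwa [hz] at this
    obtain ⟨y, hy, hy0, hy1⟩ := descend hA hd hxA hx
    have hu : ∀ y ∈ A, y ≠ 0 → |y| ≤ 1 → ∃ y' ∈ A, |y| < |y'| ∧ |y'| ≤ B := by
      intro y hy hy0 hy1
      refine ⟨f y, ?_, H.abs_lt_f hy0, ?_⟩
      · apply (H.rr_le_iff (H.f_ne hy0) _).1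
        exact ((H.rr_le_iff hy0 _).2 hy).trans (H.rr_f hy0)
      · exact hqmax (abs_le.1 hy1)
    obtain ⟨p, hp, hpS⟩ := ascend hA hu hy hy0 hy1
    refine ⟨p, hpS, ?_⟩
    have hp0 : p ≠ 0 := by
      rintro rfl
      have := hpS.1
      rw [abs_zero] at this
      linarith
    exact (H.rr_le_iff hp0 _).2 hp
  obtain ⟨y, hy, -⟩ := key 1 one_ne_zero
  obtain ⟨p, hp, hmax⟩ := (Sh_compact 1 B).exists_isMaxOn ⟨y, hy⟩ (H.rr_contOn B)
  have hp0 : p ≠ 0 := by
    rintro rfl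
    have := hp.1
    rw [abs_zero] at this
    linarith
  refine ⟨p, hp0, fun x hx => ?_⟩
  obtain ⟨y, hy, hxy⟩ := key x hx
  exact hxy.trans (hmax hy)

/-- the infimum of the ratio is attained -/
lemma exists_min : ∃ p : ℝ, p ≠ 0 ∧ ∀ x, x ≠ 0 → rr f p ≤ rr f x := by
  obtain ⟨R, hR, hpre⟩ := H.F_pre
  set B := R + 1 with hB
  have key : ∀ x, x ≠ 0 → ∃ y ∈ Sh 1 B, rr f y ≤ rr f x := by
    intro x hx
    set A : Set ℝ := {y | |Fm f y| ≤ rr f x * |y|} with hAdef
    have hA : IsClosed A := isClosed_le H.Fc.abs (continuous_const.mul continuous_abs)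
    have hxA : x ∈ A := (H.le_rr_iff hx _).1 le_rfl
    have hd : ∀ y ∈ A, y ≠ 0 → ∃ y' ∈ A, y' ≠ 0 ∧ |y'| < |y| := by
      intro y hy hy0
      obtain ⟨z, hz⟩ := H.surj y
      have hz0 := H.ne_of_f hz hy0
      refine ⟨z, ?_, hz0, ?_⟩
      · apply (H.le_rr_iff hz0 _).1
        have h1 := H.rr_f hz0
        rw [hz] at h1
        exact h1.trans ((H.le_rr_iff hy0 _).2 hy)
      · have := H.abs_lt_f hz0
        rwa [hz] at this
    obtain ⟨y, hy, hy0, hy1⟩ := descend hA hd hxA hx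
    have hu : ∀ y ∈ A, y ≠ 0 → |y| ≤ 1 → ∃ y' ∈ A, |y| < |y'| ∧ |y'| ≤ B := by
      intro y hy hy0 hy1
      obtain ⟨z, hzR, hz⟩ := hpre y hy1
      have hz0 := H.ne_of_F hz hy0
      have habs : |f z| = |z| + |y| := by rw [H.abs_f, hz]
      refine ⟨f z, ?_, ?_, ?_⟩
      · apply (H.le_rr_iff (H.f_ne hz0) _).1
        have h1 := H.rr_f_F hz0
        rw [hz] at h1
        exact h1.trans ((H.le_rr_iff hy0 _).2 hy)
      · have := abs_pos.2 hz0
        linarith
      · linarith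
    obtain ⟨p, hp, hpS⟩ := ascend hA hu hy hy0 hy1
    refine ⟨p, hpS, ?_⟩
    have hp0 : p ≠ 0 := by
      rintro rfl
      have := hpS.1
      rw [abs_zero] at this
      linarith
    exact (H.le_rr_iff hp0 _).2 hp
  obtain ⟨y, hy, -⟩ := key 1 one_ne_zero
  obtain ⟨p, hp, hmin⟩ := (Sh_compact 1 B).exists_isMinOn ⟨y, hy⟩ (H.rr_contOn B)
  have hp0 : p ≠ 0 := by
    rintro rfl
    have := hp.1
    rw [abs_zero] at this
    linarith
  refine ⟨p, hp0, fun x hx => ?_⟩
  obtain ⟨y, hy, hxy⟩ := key x hx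
  exact (hmin hy).trans hxy

/-- preimages of points where the ratio is maximal -/
lemma max_pre {M : ℝ} (hM : ∀ x, x ≠ 0 → rr f x ≤ M) {z : ℝ} (hz : z ≠ 0) (h : rr f (f z) = M) :
    rr f z = M := by
  have h1 := H.rr_id hz
  have h2 := hM _ (H.F_ne hz)
  have h3 := H.rr_pos hz
  have h4 := hM z hz
  rw [h] at h1
  nlinarith

lemma min_pre {m : ℝ} (hm : ∀ x, x ≠ 0 → m ≤ rr f x) {z : ℝ} (hz : z ≠ 0) (h : rr f (f z) = m) :
    rr f z = m := by
  have h4 := hm z hz
  have h1 := H.rr_f hz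
  linarith

lemma crossing {m M : ℝ} (hmM : m < M) (hm0 : 0 < m) (hm : ∀ x, x ≠ 0 → m ≤ rr f x)
    (hM : ∀ x, x ≠ 0 → rr f x ≤ M) (n : ℕ) : ∀ u v : ℝ, 0 < u * v → |u| < |v| → rr f u = m →
      rr f v = M → |u| * (1 + M) ^ n < |v| * (1 + m) ^ n := by
  induction n with
  | zero =>
    intro u v _ h _ _
    simpa using h
  | succ n ih =>
    intro u v huv h hu hv
    have hu0 : u ≠ 0 := by
      rintro rfl
      simp at huv
    have hv0 : v ≠ 0 := by
      rintro rfl
      simp at huv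
    obtain ⟨w, hw⟩ := H.surj v
    have hw0 := H.ne_of_f hw hv0
    have hmem : u ∈ Set.uIcc (f 0) (f w) := by
      rw [H.f0, hw, Set.mem_uIcc]
      rcases lt_or_gt_of_ne hv0 with h1 | h1
      · right
        have hu' : u < 0 := by
          by_contra hcon
          push Not at hcon
          nlinarith
        rw [abs_of_neg hu', abs_of_neg h1] at h
        exact ⟨by linarith, hu'.le⟩
      · left
        have hu' : 0 < u := by
          by_contra hcon
          push Not at hcon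
          nlinarith
        rw [abs_of_pos hu', abs_of_pos h1] at h
        exact ⟨hu'.le, h.le⟩
    obtain ⟨z, hz, hzu⟩ := intermediate_value_uIcc (a := 0) (b := w) H.cont.continuousOn hmem
    have hz0 := H.ne_of_f hzu hu0
    have hzw : z ≠ w := by
      rintro rfl
      rw [hw] at hzu
      rw [hzu] at h
      exact lt_irrefl _ h
    have hzw' : 0 < z * w ∧ |z| < |w| := by
      rw [Set.mem_uIcc] at hz
      rcases hz with ⟨h1, h2⟩ | ⟨h1, h2⟩
      · have h1' : 0 < z := lt_of_le_of_ne h1 hz0.symm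
        have h2' : z < w := lt_of_le_of_ne h2 hzw
        have h3 : 0 < w := h1'.trans h2'
        exact ⟨mul_pos h1' h3, by rwa [abs_of_pos h1', abs_of_pos h3]⟩
      · have h2' : z < 0 := lt_of_le_of_ne h2 hz0
        have h1' : w < z := lt_of_le_of_ne h1 hzw.symm
        have h3 : w < 0 := h1'.trans h2'
        refine ⟨mul_pos_of_neg_of_neg h2' h3, ?_⟩
        rw [abs_of_neg h2', abs_of_neg h3]
        linarith
    have hrz : rr f z = m := H.min_pre hm hz0 (by rw [hzu]; exact hu)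
    have hrw : rr f w = M := H.max_pre hM hw0 (by rw [hw]; exact hv)
    have h1 := ih z w hzw'.1 hzw'.2 hrz hrw
    have h2 := H.absf hz0
    have h3 := H.absf hw0
    rw [hzu, hrz] at h2
    rw [hw, hrw] at h3
    rw [h2, h3]
    have h4 : 0 < (1 + m) * (1 + M) := by
      have : 0 < M := hm0.trans hmM
      positivity
    calc (1 + m) * |z| * (1 + M) ^ (n + 1) = ((1 + m) * (1 + M)) * (|z| * (1 + M) ^ n) := by ring
      _ < ((1 + m) * (1 + M)) * (|w| * (1 + m) ^ n) := mul_lt_mul_of_pos_left h1 h4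
      _ = (1 + M) * |w| * (1 + m) ^ (n + 1) := by ring

lemma small_min {m : ℝ} (hm0 : 0 < m) (hm : ∀ x, x ≠ 0 → m ≤ rr f x) {p : ℝ} (hp : p ≠ 0)
    (hpm : rr f p = m) (n : ℕ) : ∃ u, u ≠ 0 ∧ rr f u = m ∧ |u| * (1 + m) ^ n = |p| := by
  induction n with
  | zero => exact ⟨p, hp, hpm, by simp⟩
  | succ n ih =>
    obtain ⟨u, hu0, hum, hu⟩ := ih
    obtain ⟨z, hz⟩ := H.surj u
    have hz0 := H.ne_of_f hz hu0
    have hrz : rr f z = m := H.min_pre hm hz0 (by rw [hz]; exact hum)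
    refine ⟨z, hz0, hrz, ?_⟩
    have h2 := H.absf hz0
    rw [hz, hrz] at h2
    rw [← hu, h2]
    ring

lemma tends_pow {a b c : ℝ} (ha : 1 < a) (hc : 0 < c) : ∃ n : ℕ, b < c * a ^ n := by
  have h := tendsto_pow_atTop_atTop_of_one_lt ha
  obtain ⟨n, hn⟩ := (h.eventually_gt_atTop (b / c)).exists
  refine ⟨n, ?_⟩
  rw [div_lt_iff₀ hc] at hn
  linarith

lemma max_eq_min {p q : ℝ} (hp : p ≠ 0) (hq : q ≠ 0) (hmax : ∀ x, x ≠ 0 → rr f x ≤ rr f p)
    (hmin : ∀ x, x ≠ 0 → rr f q ≤ rr f x) : rr f q = rr f p := by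
  by_contra hne
  have hlt : rr f q < rr f p := lt_of_le_of_ne (hmin p hp) hne
  have hq0 := H.rr_pos hq
  set m := rr f q with hm
  set M := rr f p with hM
  -- a small point `u` with the right sign
  have hu : ∃ u, u ≠ 0 ∧ rr f u = m ∧ |u| < |p| := by
    obtain ⟨n, hn⟩ := H.tends_pow (a := 1 + m) (b := |q|) (c := |p|) (by linarith) (abs_pos.2 hp)
    obtain ⟨u, hu0, hum, hu⟩ := H.small_min hq0 hmin hq hm.symm n
    refine ⟨u, hu0, hum, ?_⟩
    rw [← hu] at hn
    exact lt_of_mul_lt_mul_right hn (by positivity)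
  have hu' : ∃ u, 0 < u * p ∧ rr f u = m ∧ |u| < |p| := by
    obtain ⟨u, hu0, hum, hlt'⟩ := hu
    rcases lt_trichotomy (u * p) 0 with h | h | h
    · obtain ⟨z, hz⟩ := H.surj u
      have hz0 := H.ne_of_f hz hu0
      have hrz : rr f z = m := H.min_pre hmin hz0 (by rw [hz]; exact hum)
      refine ⟨z, ?_, hrz, ?_⟩
      · rcases lt_or_gt_of_ne hz0 with h1 | h1
        · have h2 := H.f_pos h1
          rw [hz] at h2
          have h3 : p < 0 := by
            by_contra hcon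
            push Not at hcon
            have := mul_nonneg h2.le hcon
            linarith
          exact mul_pos_of_neg_of_neg h1 h3
        · have h2 := H.f_neg h1
          rw [hz] at h2
          have h3 : 0 < p := by
            by_contra hcon
            push Not at hcon
            have := mul_nonneg_of_nonpos_of_nonpos h2.le hcon
            linarith
          exact mul_pos h1 h3
      · have := H.abs_lt_f hz0
        rw [hz] at this
        linarith
    · exact absurd h (mul_ne_zero hu0 hp)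
    · exact ⟨u, h, hum, hlt'⟩
  obtain ⟨u, h1, h2, h3⟩ := hu'
  have hu0 : u ≠ 0 := by
    rintro rfl
    simp at h1
  have hM0 : 0 < 1 + m := by linarith
  obtain ⟨n, hn⟩ := H.tends_pow (a := (1 + M) / (1 + m)) (b := |p|) (c := |u|)
    (by rw [lt_div_iff₀ hM0]; linarith) (abs_pos.2 hu0)
  have h4 := H.crossing hlt hq0 hmin hmax n u p h1 h3 h2 hM.symm
  rw [div_pow, mul_div_assoc', lt_div_iff₀ (by positivity)] at hn
  linarith

/-- **The expanding alternating case.** -/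
theorem linear : ∃ a : ℝ, ∀ x, f x = a * x := by
  obtain ⟨p, hp, hmax⟩ := H.exists_max
  obtain ⟨q, hq, hmin⟩ := H.exists_min
  have h := H.max_eq_min hp hq hmax hmin
  refine ⟨-(1 + rr f p), fun x => ?_⟩
  rcases lt_trichotomy x 0 with hx | hx | hx
  · have h1 : rr f x = rr f p := le_antisymm (hmax x hx.ne) (h ▸ hmin x hx.ne)
    have h2 := H.absf hx.ne
    rw [abs_of_neg hx, abs_of_pos (H.f_pos hx), h1] at h2
    rw [h2]
    ring
  · subst hx
    rw [H.f0]
    ring
  · have h1 : rr f x = rr f p := le_antisymm (hmax x hx.ne') (h ▸ hmin x hx.ne')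
    have h2 := H.absf hx.ne'
    rw [abs_of_pos hx, abs_of_neg (H.f_neg hx), h1] at h2
    linarith

end Alt

end Pool.Agent.J4.H67.FE
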