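import Pool.Agent.J4.H67.FE.Cases

set_option autoImplicit false

/-!
# Continuous functions that are additive on their graphs: from local to global, main theorem
-/

open Filter Topology

namespace Pool.Agent.J4.H67.FE

/-- a first bad radius -/
lemma first_bad {P : ℝ → Prop} {C : Set ℝ} (hC : IsClosed C) (hPC : ∀ x, x ≠ 0 → (x ∈ C ↔ ¬ P x))
    {η : ℝ} (hη : 0 < η) (hloc : ∀ x, x ≠ 0 → |x| < η → P x) (hbad : ∃ x, x ≠ 0 ∧ ¬ P x) :
    ∃ z, z ≠ 0 ∧ ¬ P z ∧ ∀ x, x ≠ 0 → |x| < |z| → P x := by
  obtain ⟨c, hc0, hc⟩ := hbad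
  have hcη : η ≤ |c| := by
    by_contra h
    push Not at h
    exact hc (hloc c hc0 h)
  have hK : IsCompact (Sh (η / 2) |c| ∩ C) := (Sh_compact _ _).inter_right hC
  obtain ⟨z, hz, hmin⟩ := hK.exists_isMinOn ⟨c, ⟨by linarith, le_rfl⟩, (hPC c hc0).2 hc⟩
    continuous_abs.continuousOn
  have hz0 : z ≠ 0 := by
    rintro rfl
    have := hz.1.1
    rw [abs_zero] at this
    linarith
  refine ⟨z, hz0, (hPC z hz0).1 hz.2, fun x hx hlt => ?_⟩
  by_cases h : |x| < η
  · exact hloc x hx h
  · push Not at h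
    by_contra hP
    have := hmin (a := x) ⟨⟨by linarith, by linarith [hz.1.2]⟩, (hPC x hx).2 hP⟩
    simp only [Set.mem_ofPred_eq] at this
    linarith

/-- limit of a sign condition along a ray -/
lemma ray_le {g : ℝ → ℝ} (hg : Continuous g) {z : ℝ} (hz : z ≠ 0)
    (h : ∀ x, x ≠ 0 → |x| < |z| → x * g x < 0) : z * g z ≤ 0 := by
  by_contra hcon
  push Not at hcon
  have hc : Continuous (fun t : ℝ => (t * z) * g (t * z)) :=
    (continuous_id.mul continuous_const).mul (hg.comp (continuous_id.mul continuous_const))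
  have hsmall : ∀ t : ℝ, 0 < t → t < 1 → (t * z) * g (t * z) < 0 := by
    intro t ht0 ht1
    apply h _ (mul_ne_zero ht0.ne' hz)
    rw [abs_mul, abs_of_pos ht0]
    have := abs_pos.2 hz
    nlinarith
  have hmem : (0 : ℝ) ∈ Set.Icc ((1 / 2 * z) * g (1 / 2 * z)) ((1 * z) * g (1 * z)) := by
    refine ⟨(hsmall _ (by norm_num) (by norm_num)).le, ?_⟩
    rw [one_mul]
    exact hcon.le
  obtain ⟨t, ht, ht0⟩ := intermediate_value_Icc (by norm_num : (1 / 2 : ℝ) ≤ 1) hc.continuousOn hmem
  simp only at ht0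
  rcases eq_or_lt_of_le ht.2 with h1 | h1
  · rw [h1, one_mul] at ht0
    linarith
  · linarith [hsmall t (by linarith [ht.1]) h1]

namespace Sol

variable {f : ℝ → ℝ} (H : Sol f)
include H

/-! ### the contracting case -/

/-- `f` does not vanish at the first bad radius, right side -/
lemma con_right_f {R : ℝ} (hR : 0 < R) (hsf : ∀ x, x ≠ 0 → |x| < R → x * f x < 0)
    (hsF : ∀ x, x ≠ 0 → |x| < R → 0 < x * Fm f x) (hfR : f R = 0) : False := by
  have fneg : ∀ x, 0 < x → x < R → f x < 0 := by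
    intro x h1 h2
    have := hsf x h1.ne' (by rwa [abs_of_pos h1])
    by_contra hcon
    push Not at hcon
    nlinarith
  have fpos : ∀ x, x < 0 → -R < x → 0 < f x := by
    intro x h1 h2
    have := hsf x h1.ne (by rw [abs_of_neg h1]; linarith)
    by_contra hcon
    push Not at hcon
    nlinarith
  have Fpos : ∀ x, 0 < x → x < R → 0 < Fm f x := by
    intro x h1 h2
    have := hsF x h1.ne' (by rwa [abs_of_pos h1])
    by_contra hcon
    push Not at hcon
    nlinarith
  have Fneg : ∀ x, x < 0 → -R < x → Fm f x < 0 := by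
    intro x h1 h2
    have := hsF x h1.ne (by rw [abs_of_neg h1]; linarith)
    by_contra hcon
    push Not at hcon
    nlinarith
  set w := R / 2 with hw
  have hfw := fneg w (by linarith) (by linarith)
  obtain ⟨δ, hδ, hδc⟩ := Metric.continuousAt_iff.1 (H.cont.continuousAt (x := w)) (-f w / 2)
    (by linarith)
  -- a point close to `R`
  set ε := min δ (-f w / 2) with hε
  have hε0 : 0 < ε := lt_min hδ (by linarith)
  obtain ⟨x, hx1, hx2, hx3⟩ : ∃ x, w < x ∧ x < R ∧ -ε < f x := by
    obtain ⟨δ', hδ', h1⟩ := Metric.continuousAt_iff.1 (H.cont.continuousAt (x := R)) ε hε0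
    have h2 : 0 < min (δ' / 2) (R / 4) := lt_min (by linarith) (by linarith)
    have h3 := min_le_left (δ' / 2) (R / 4)
    have h3' := min_le_right (δ' / 2) (R / 4)
    refine ⟨R - min (δ' / 2) (R / 4), by linarith, by linarith, ?_⟩
    have h4 := h1 (x := R - min (δ' / 2) (R / 4)) (by
      rw [Real.dist_eq, abs_lt]
      constructor <;> linarith)
    rw [Real.dist_eq, hfR, sub_zero, abs_lt] at h4
    exact h4.1
  have hx0 : 0 < x := by linarith
  -- the orbit of `x`
  have horb : ∀ n : ℕ, 0 < (Fm f)^[n] x ∧ (Fm f)^[n] x ≤ x := by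
    intro n
    induction n with
    | zero => exact ⟨hx0, le_rfl⟩
    | succ n ih =>
      rw [Function.iterate_succ_apply']
      have h1 := Fpos _ ih.1 (by linarith [ih.2])
      have h2 := fneg _ ih.1 (by linarith [ih.2])
      refine ⟨h1, ?_⟩
      have h3 : Fm f ((Fm f)^[n] x) = (Fm f)^[n] x + f ((Fm f)^[n] x) := rfl
      linarith [ih.2]
  have hy1 : f x < 0 := fneg x hx0 hx2
  have hy2 : -R < f x := by
    have := Fpos x hx0 hx2
    unfold Fm at this
    linarith
  have horb' : ∀ n : ℕ, f x ≤ (Fm f)^[n] (f x) ∧ (Fm f)^[n] (f x) < 0 := by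
    intro n
    induction n with
    | zero => exact ⟨le_rfl, hy1⟩
    | succ n ih =>
      rw [Function.iterate_succ_apply']
      have h1 := Fneg _ ih.2 (by linarith [ih.1])
      have h2 := fpos _ ih.2 (by linarith [ih.1])
      have h3 : Fm f ((Fm f)^[n] (f x)) = (Fm f)^[n] (f x) + f ((Fm f)^[n] (f x)) := rfl
      exact ⟨by linarith [ih.1], h1⟩
  have hstep : ∀ n, (Fm f)^[n + 1] x = (Fm f)^[n] x + (Fm f)^[n] (f x) := by
    intro n
    rw [Function.iterate_succ_apply', ← H.comm_iter]
    rfl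
  have hanti : Antitone (fun n => (Fm f)^[n] x) := by
    refine antitone_nat_of_succ_le fun n => ?_
    simp only [hstep]
    linarith [(horb' n).2]
  have hb : BddBelow (Set.range (fun n => (Fm f)^[n] x)) :=
    ⟨0, by rintro _ ⟨n, rfl⟩; exact (horb n).1.le⟩
  have hlim := tendsto_atTop_ciInf hanti hb
  set L := ⨅ n, (Fm f)^[n] x with hL
  have hL0 : 0 ≤ L := le_ciInf fun n => (horb n).1.le
  have hLx : L ≤ x := ciInf_le hb 0
  have hFL : Fm f L = L := by
    have h1 : Tendsto (fun n => (Fm f)^[n + 1] x) atTop (𝓝 L) :=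
      hlim.comp (tendsto_add_atTop_nat 1)
    have h2 : Tendsto (fun n => (Fm f)^[n + 1] x) atTop (𝓝 (Fm f L)) := by
      simp only [Function.iterate_succ_apply']
      exact (H.Fc.tendsto L).comp hlim
    exact tendsto_nhds_unique h2 h1
  have hLz : L = 0 := by
    by_contra hne
    have h1 : 0 < L := lt_of_le_of_ne hL0 (Ne.symm hne)
    have h2 := fneg L h1 (by linarith)
    unfold Fm at hFL
    linarith
  rw [hLz] at hlim
  have hev := hlim.eventually (gt_mem_nhds (show (0 : ℝ) < w by linarith))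
  obtain ⟨N, hN⟩ := hev.exists
  obtain ⟨n, h1, h2⟩ := cross' (s := fun n => (Fm f)^[n] x) (c := w) hx1.le ⟨N, hN⟩
  rw [hstep] at h2
  have h3 := horb' n
  have h4 : ε ≤ δ := min_le_left _ _
  have h5 : ε ≤ -f w / 2 := min_le_right _ _
  have h6 := hδc (x := (Fm f)^[n] x) (by
    rw [Real.dist_eq, abs_lt]
    constructor <;> linarith)
  rw [H.comm_iter, Real.dist_eq, abs_lt] at h6
  linarith [h6.2]

/-- `x + f x` does not vanish at the first bad radius, right side -/
lemma con_right_F {R : ℝ} (hR : 0 < R) (hsf : ∀ x, x ≠ 0 → |x| < R → x * f x < 0)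
    (hsF : ∀ x, x ≠ 0 → |x| < R → 0 < x * Fm f x) (hFR : Fm f R = 0) : False := by
  have habs : ∀ x, x ≠ 0 → |x| < R → |f x| + |Fm f x| = |x| ∧ f x ≠ 0 ∧ Fm f x ≠ 0 := by
    intro x h1 h2
    have h3 := hsf x h1 h2
    have h4 := hsF x h1 h2
    have h5 : Fm f x = x + f x := rfl
    rcases lt_or_gt_of_ne h1 with h | h
    · have h6 : 0 < f x := by
        by_contra hcon
        push Not at hcon
        nlinarith
      have h7 : Fm f x < 0 := by
        by_contra hcon
        push Not at hcon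
        nlinarith
      refine ⟨?_, h6.ne', h7.ne⟩
      rw [abs_of_pos h6, abs_of_neg h7, abs_of_neg h, h5]
      ring
    · have h6 : f x < 0 := by
        by_contra hcon
        push Not at hcon
        nlinarith
      have h7 : 0 < Fm f x := by
        by_contra hcon
        push Not at hcon
        nlinarith
      refine ⟨?_, h6.ne, h7.ne'⟩
      rw [abs_of_neg h6, abs_of_pos h7, abs_of_pos h, h5]
      ring
  -- iterates of `f` stay in the ball
  have hit : ∀ y, y ≠ 0 → |y| < R → ∀ n, f^[n] y ≠ 0 ∧ |f^[n] y| ≤ |y| := by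
    intro y hy1 hy2 n
    induction n with
    | zero => exact ⟨hy1, le_rfl⟩
    | succ n ih =>
      rw [Function.iterate_succ_apply']
      have h1 := habs _ ih.1 (by linarith [ih.2])
      refine ⟨h1.2.1, ?_⟩
      have := abs_nonneg (Fm f (f^[n] y))
      linarith [h1.1, ih.2]
  set w := R / 2 with hw
  have hwR : |w| < R := by rw [abs_of_pos (by linarith)]; linarith
  have hFw : 0 < Fm f w := by
    have := hsF w (by linarith) hwR
    by_contra hcon
    push Not at hcon
    nlinarith
  obtain ⟨δ, hδ, hδc⟩ := Metric.continuousAt_iff.1 (H.Fc.continuousAt (x := w)) (Fm f w / 2)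
    (by linarith)
  set ε := min (δ / 2) (Fm f w / 2) with hε
  have hε0 : 0 < ε := lt_min (by linarith) (by linarith)
  obtain ⟨x, hx1, hx2, hx3⟩ : ∃ x, w < x ∧ x < R ∧ |Fm f x| < ε := by
    obtain ⟨δ', hδ', h1⟩ := Metric.continuousAt_iff.1 (H.Fc.continuousAt (x := R)) ε hε0
    have h2 : 0 < min (δ' / 2) (R / 4) := lt_min (by linarith) (by linarith)
    have h3 := min_le_left (δ' / 2) (R / 4)
    have h3' := min_le_right (δ' / 2) (R / 4)
    refine ⟨R - min (δ' / 2) (R / 4), by linarith, by linarith, ?_⟩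
    have h4 := h1 (x := R - min (δ' / 2) (R / 4)) (by
      rw [Real.dist_eq, abs_lt]
      constructor <;> linarith)
    rwa [Real.dist_eq, hFR, sub_zero] at h4
  have hx0 : 0 < x := by linarith
  have hxR : |x| < R := by rwa [abs_of_pos hx0]
  have hFx := habs x hx0.ne' hxR
  have hFxR : |Fm f x| < R := by
    have := abs_nonneg (f x)
    linarith [hFx.1]
  -- small values along the orbit
  have hsmall : ∀ n, |Fm f (f^[n] x)| < ε := by
    intro n
    rw [H.comm_iter']
    exact ((hit _ hFx.2.2 hFxR n).2).trans_lt hx3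
  -- sign
  have hsgn : ∀ t, t ≠ 0 → |t| < R → (0 < t → f t < 0) ∧ (t < 0 → 0 < f t) := by
    intro t h1 h2
    have h3 := hsf t h1 h2
    constructor
    · intro h
      by_contra hcon
      push Not at hcon
      nlinarith
    · intro h
      by_contra hcon
      push Not at hcon
      nlinarith
  set s : ℕ → ℝ := fun n => f^[2 * n] x with hs
  have hs0 : ∀ n, 0 < s n ∧ s n ≤ x := by
    intro n
    have hpos : 0 < s n := by
      induction n with
      | zero => exact hx0
      | succ n ih =>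
        have e : s (n + 1) = f (f (s n)) := by
          simp only [hs]
          rw [show 2 * (n + 1) = (2 * n + 1) + 1 from by ring, Function.iterate_succ_apply',
            Function.iterate_succ_apply']
        rw [e]
        have h1 := hit x hx0.ne' hxR (2 * n)
        have h2 : |s n| < R := h1.2.trans_lt hxR
        have h3 := (hsgn (s n) h1.1 h2).1 ih
        have h4 := habs (s n) h1.1 h2
        have h5 := abs_nonneg (Fm f (s n))
        exact (hsgn (f (s n)) h4.2.1 (by linarith [h4.1])).2 h3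
    refine ⟨hpos, ?_⟩
    have h1 := (hit x hx0.ne' hxR (2 * n)).2
    rw [abs_of_pos hx0] at h1
    exact (le_abs_self _).trans h1
  have hsR : ∀ n, s n ≠ 0 ∧ |s n| < R := fun n => by
    refine ⟨(hs0 n).1.ne', ?_⟩
    rw [abs_of_pos (hs0 n).1]
    linarith [(hs0 n).2]
  have hstep : ∀ n, s (n + 1) = f (f (s n)) := by
    intro n
    simp only [hs]
    rw [show 2 * (n + 1) = (2 * n + 1) + 1 from by ring, Function.iterate_succ_apply',
      Function.iterate_succ_apply']
  have hstep' : ∀ n, s n - 2 * ε < s (n + 1) ∧ s (n + 1) ≤ s n := by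
    intro n
    have h1 := habs (s n) (hsR n).1 (hsR n).2
    have h1' := abs_nonneg (Fm f (s n))
    have h2 := habs (f (s n)) h1.2.1 (by linarith [h1.1, (hsR n).2])
    have h3 := hsmall (2 * n)
    have h4 := hsmall (2 * n + 1)
    rw [Function.iterate_succ_apply'] at h4
    rw [← hstep n] at h2
    rw [abs_of_pos (hs0 (n + 1)).1] at h2
    rw [abs_of_pos (hs0 n).1] at h1
    have h5 : |Fm f (s n)| < ε := h3
    have h6 : |Fm f (f (s n))| < ε := h4
    have h7 := abs_nonneg (Fm f (f (s n)))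
    constructor <;> linarith [h1.1, h2.1]
  have hanti : Antitone s := antitone_nat_of_succ_le fun n => (hstep' n).2
  have hb : BddBelow (Set.range s) := ⟨0, by rintro _ ⟨n, rfl⟩; exact (hs0 n).1.le⟩
  have hlim := tendsto_atTop_ciInf hanti hb
  set L := ⨅ n, s n with hL
  have hL0 : 0 ≤ L := le_ciInf fun n => (hs0 n).1.le
  have hLx : L ≤ x := ciInf_le hb 0
  have hFL : f (f L) = L := by
    have h1 : Tendsto (fun n => s (n + 1)) atTop (𝓝 L) :=
      hlim.comp (tendsto_add_atTop_nat 1)
    have h2 : Tendsto (fun n => s (n + 1)) atTop (𝓝 (f (f L))) := by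
      simp only [hstep]
      exact ((H.cont.comp H.cont).tendsto L).comp hlim
    exact tendsto_nhds_unique h2 h1
  have hLz : L = 0 := by
    by_contra hne
    have h1 : 0 < L := lt_of_le_of_ne hL0 (Ne.symm hne)
    have hLR : |L| < R := by rw [abs_of_pos h1]; linarith
    have h2 := habs L hne hLR
    have h2' := abs_pos.2 h2.2.2
    have h3 := habs (f L) h2.2.1 (by linarith [h2.1])
    rw [hFL] at h3
    have h3' := abs_nonneg (Fm f (f L))
    linarith [h2.1, h3.1]
  rw [hLz] at hlim
  obtain ⟨N, hN⟩ := (hlim.eventually (gt_mem_nhds (show (0 : ℝ) < w by linarith))).exists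
  obtain ⟨n, h1, h2⟩ := cross' (s := s) (c := w) hx1.le ⟨N, hN⟩
  have h3 := hstep' n
  have h4 : ε ≤ δ / 2 := min_le_left _ _
  have h5 : ε ≤ Fm f w / 2 := min_le_right _ _
  have h6 := hδc (x := s n) (by
    rw [Real.dist_eq, abs_lt]
    constructor <;> linarith)
  have h7 := hsmall (2 * n)
  have h8 : |Fm f (s n)| < ε := h7
  rw [Real.dist_eq, abs_lt] at h6
  rw [abs_lt] at h8
  linarith [h6.1, h8.2]

lemma con_global {η : ℝ} (hη : 0 < η) (hloc : ∀ x, x ≠ 0 → |x| < η → x * f x < 0 ∧ 0 < x * Fm f x) :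
    Con f := by
  by_cases hbad : ∃ x, x ≠ 0 ∧ ¬ (x * f x < 0 ∧ 0 < x * Fm f x)
  swap
  · push Not at hbad
    exact ⟨H, fun x hx => (hbad x hx).1, fun x hx => (hbad x hx).2⟩
  exfalso
  have hC : IsClosed {x : ℝ | 0 ≤ x * f x ∨ x * Fm f x ≤ 0} :=
    (isClosed_le continuous_const (continuous_id.mul H.cont)).union
      (isClosed_le (continuous_id.mul H.Fc) continuous_const)
  obtain ⟨z, hz0, hz, hgood⟩ := first_bad hC (fun x _ => by
    simp only [Set.mem_ofPred_eq, not_and_or, not_lt]) hη hloc hbad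
  have h1 : z * f z ≤ 0 := ray_le H.cont hz0 (fun x h1 h2 => (hgood x h1 h2).1)
  have h2 : 0 ≤ z * Fm f z := by
    have := ray_le (g := fun x => -Fm f x) H.Fc.neg hz0 (fun x h1 h2 => by
      have := (hgood x h1 h2).2
      linarith)
    linarith
  have h3 : f z = 0 ∨ Fm f z = 0 := by
    by_contra hcon
    push Not at hcon
    apply hz
    exact ⟨lt_of_le_of_ne h1 (mul_ne_zero hz0 hcon.1),
      lt_of_le_of_ne h2 (mul_ne_zero hz0 hcon.2).symm⟩
  rcases h3 with h3 | h3
  · rcases lt_or_gt_of_ne hz0 with h | h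
    · -- left side: mirror
      refine H.mirror.con_right_f (R := -z) (by linarith) ?_ ?_ (by simp [h3])
      · intro x hx1 hx2
        have := (hgood (-x) (neg_ne_zero.2 hx1) (by rwa [abs_neg, abs_of_neg h])).1
        linarith
      · intro x hx1 hx2
        have := (hgood (-x) (neg_ne_zero.2 hx1) (by rwa [abs_neg, abs_of_neg h])).2
        rw [H.Fm_mirror]
        linarith
    · refine H.con_right_f (R := z) h ?_ ?_ h3
      · intro x hx1 hx2
        exact (hgood x hx1 (by rwa [abs_of_pos h])).1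
      · intro x hx1 hx2
        exact (hgood x hx1 (by rwa [abs_of_pos h])).2
  · have h4 : Fm f |z| = 0 := by
      rcases abs_choice z with h | h
      · rw [h]
        exact h3
      · rw [h]
        exact H.F_symm h3
    exact H.con_right_F (abs_pos.2 hz0) (fun x h5 h6 => (hgood x h5 h6).1)
      (fun x h5 h6 => (hgood x h5 h6).2) h4

/-! ### the expanding case -/

lemma alt_global {η : ℝ} (hη : 0 < η) (hloc : ∀ x, x ≠ 0 → |x| < η → x * Fm f x < 0) :
    Alt f := by
  by_cases hbad : ∃ x, x ≠ 0 ∧ ¬ (x * Fm f x < 0)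
  swap
  · push Not at hbad
    exact ⟨H.cont, H.eq, hbad⟩
  exfalso
  have hC : IsClosed {x : ℝ | 0 ≤ x * Fm f x} :=
    isClosed_le continuous_const (continuous_id.mul H.Fc)
  obtain ⟨z, hz0, hz, hgood⟩ := first_bad hC (fun x _ => by
    simp only [Set.mem_ofPred_eq, not_lt]) hη hloc hbad
  have h1 : z * Fm f z ≤ 0 := ray_le H.Fc hz0 hgood
  have h2 : Fm f z = 0 := by
    by_contra hcon
    exact hz (lt_of_le_of_ne h1 (mul_ne_zero hz0 hcon))
  have hzz : ∀ t, |t| = |z| → Fm f t = 0 := by
    intro t ht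
    rcases abs_eq_abs.1 ht with h | h
    · rw [h]
      exact h2
    · rw [h]
      exact H.F_symm h2
  have habs : ∀ x, x ≠ 0 → |x| < |z| → |f x| = |x| + |Fm f x| ∧ Fm f x ≠ 0 := by
    intro x hx1 hx2
    have h3 := hgood x hx1 hx2
    have h5 : Fm f x = x + f x := rfl
    rcases lt_or_gt_of_ne hx1 with h | h
    · have h7 : 0 < Fm f x := by
        by_contra hcon
        push Not at hcon
        nlinarith
      refine ⟨?_, h7.ne'⟩
      rw [abs_of_pos h7, abs_of_neg h, abs_of_pos (by linarith), h5]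
      ring
    · have h7 : Fm f x < 0 := by
        by_contra hcon
        push Not at hcon
        nlinarith
      refine ⟨?_, h7.ne⟩
      rw [abs_of_neg h7, abs_of_pos h, abs_of_neg (by linarith), h5]
      ring
  have hball : ∀ x, x ≠ 0 → |x| < |z| → |f x| < |z| := by
    intro x hx1 hx2
    by_contra hcon
    push Not at hcon
    have hmem : |z| ∈ Set.uIcc (|f 0|) (|f x|) := by
      rw [H.f0, abs_zero]
      exact Set.mem_uIcc.2 (Or.inl ⟨abs_nonneg _, hcon⟩)
    obtain ⟨t, ht, htz⟩ := intermediate_value_uIcc (a := 0) (b := x)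
      (H.cont.abs).continuousOn hmem
    simp only at htz
    have ht0 : t ≠ 0 := by
      rintro rfl
      rw [H.f0, abs_zero] at htz
      exact hz0 (abs_eq_zero.1 htz.symm)
    have htx : |t| < |z| := by
      have := Set.abs_sub_left_of_mem_uIcc ht
      simp only [sub_zero] at this
      linarith
    have h3 := habs t ht0 htx
    have h4 := H.comm t
    rw [hzz (f t) htz] at h4
    have h5 : |Fm f t| < |z| := by
      have := abs_pos.2 ht0
      linarith [h3.1]
    have h6 := hgood (Fm f t) h3.2 h5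
    have h7 : Fm f (Fm f t) = Fm f t := by
      show Fm f t + f (Fm f t) = Fm f t
      rw [h4, add_zero]
    rw [h7] at h6
    nlinarith [sq_nonneg (Fm f t)]
  have hfne : ∀ x, x ≠ 0 → |x| < |z| → f x ≠ 0 := by
    intro x hx1 hx2 h
    have := habs x hx1 hx2
    rw [h, abs_zero] at this
    have h' := abs_pos.2 hx1
    have h'' := abs_nonneg (Fm f x)
    linarith [this.1]
  have hit : ∀ y, y ≠ 0 → |y| < |z| → ∀ n, (f^[n] y ≠ 0 ∧ |f^[n] y| < |z|) ∧ |y| ≤ |f^[n] y| := by
    intro y hy1 hy2 n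
    induction n with
    | zero => exact ⟨⟨hy1, hy2⟩, le_rfl⟩
    | succ n ih =>
      rw [Function.iterate_succ_apply']
      refine ⟨⟨hfne _ ih.1.1 ih.1.2, hball _ ih.1.1 ih.1.2⟩, ?_⟩
      rw [(habs _ ih.1.1 ih.1.2).1]
      have := abs_nonneg (Fm f (f^[n] y))
      linarith [ih.2]
  have hzpos := abs_pos.2 hz0
  set x := z / 2 with hx
  have hx0 : x ≠ 0 := by rw [hx]; exact div_ne_zero hz0 two_ne_zero
  have hxz : |x| < |z| := by
    rw [hx, abs_div, abs_two]
    linarith
  have h3 := habs x hx0 hxz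
  have h4 : |Fm f x| < |z| := by
    have := hball x hx0 hxz
    have := abs_pos.2 hx0
    linarith [h3.1]
  have key : ∀ n : ℕ, n * |Fm f x| ≤ |f^[n] x| := by
    intro n
    induction n with
    | zero => simp
    | succ n ih =>
      rw [Function.iterate_succ_apply', (habs _ (hit x hx0 hxz n).1.1 (hit x hx0 hxz n).1.2).1,
        H.comm_iter']
      push_cast
      linarith [(hit _ h3.2 h4 n).2]
  have hFx := abs_pos.2 h3.2
  obtain ⟨n, hn⟩ := exists_nat_gt (|z| / |Fm f x|)
  rw [div_lt_iff₀ hFx] at hn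
  linarith [key n, (hit x hx0 hxz n).1.2]

/-! ### the main theorem -/

theorem classification : (∃ a : ℝ, ∀ x, f x = a * x) ∨
    ∃ a b : ℝ, 0 ≤ a ∧ 0 ≤ b ∧ ∀ x, f x = if 0 ≤ x then a * x else b * x := by
  by_cases hR : ∀ x, 0 ≤ x → 0 ≤ f x
  · exact Or.inr (H.two_sided hR)
  by_cases hL : ∀ x, x ≤ 0 → f x ≤ 0
  · right
    obtain ⟨a, b, ha, hb, h⟩ := H.mirror.two_sided (fun x hx => by
      have := hL (-x) (by linarith)
      linarith)
    refine ⟨b, a, hb, ha, fun x => ?_⟩
    have h1 := h (-x)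
    simp only [neg_neg] at h1
    rcases lt_trichotomy x 0 with hx | hx | hx
    · rw [if_pos (by linarith)] at h1
      rw [if_neg (by linarith)]
      linarith
    · subst hx
      simp [H.f0]
    · rw [if_neg (by linarith)] at h1
      rw [if_pos hx.le]
      linarith
  left
  push Not at hR hL
  obtain ⟨x₀, hx0, hf0⟩ := hR
  obtain ⟨x₁, hx1, hf1⟩ := hL
  have hx0' : 0 < x₀ := lt_of_le_of_ne hx0 (fun h => by rw [← h, H.f0] at hf0; linarith)
  have hx1' : x₁ < 0 := lt_of_le_of_ne hx1 (fun h => by rw [h, H.f0] at hf1; linarith)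
  obtain ⟨η₁, hη1, h1⟩ := H.local_neg hx0' hf0 hx1' hf1
  obtain ⟨η₂, hη2, h2'⟩ := H.mirror.local_neg (x₀ := -x₁) (x₁ := -x₀) (by linarith)
    (by rw [neg_neg]; linarith) (by linarith) (by rw [neg_neg]; linarith)
  have h2 : ∀ x, x < 0 → -η₂ < x → 0 < f x := by
    intro x hx hx'
    have := h2' (-x) (by linarith) (by linarith)
    rw [neg_neg] at this
    linarith
  by_cases hY : ∀ η : ℝ, 0 < η → ∃ y, y ≠ 0 ∧ |y| < η ∧ Fm f y = 0
  · refine ⟨-1, fun x => ?_⟩
    have := H.F_zero_all hY x
    unfold Fm at this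
    linarith
  push Not at hY
  obtain ⟨η₃, hη3, h3⟩ := hY
  -- the signs of `F` near zero
  have hFr : (∀ x, 0 < x → x < η₃ → 0 < Fm f x) ∨ (∀ x, 0 < x → x < η₃ → Fm f x < 0) := by
    have hne : ∀ x, 0 < x → x < η₃ → Fm f x ≠ 0 := fun x h4 h5 =>
      h3 x h4.ne' (by rwa [abs_of_pos h4])
    rcases lt_or_gt_of_ne (hne (η₃ / 2) (by linarith) (by linarith)) with h | h
    · exact Or.inr (sign_const H.Fc hne (by linarith) (by linarith) h)
    · exact Or.inl (sign_const' H.Fc hne (by linarith) (by linarith) h)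
  have hFl : (∀ x, -η₃ < x → x < 0 → 0 < Fm f x) ∨ (∀ x, -η₃ < x → x < 0 → Fm f x < 0) := by
    have hne : ∀ x, -η₃ < x → x < 0 → Fm f x ≠ 0 := fun x h4 h5 =>
      h3 x h5.ne (by rw [abs_of_neg h5]; linarith)
    rcases lt_or_gt_of_ne (hne (-η₃ / 2) (by linarith) (by linarith)) with h | h
    · exact Or.inr (sign_const H.Fc hne (by linarith) (by linarith) h)
    · exact Or.inl (sign_const' H.Fc hne (by linarith) (by linarith) h)
  set η := min (min η₁ η₂) η₃ with hη
  have hη0 : 0 < η := lt_min (lt_min hη1 hη2) hη3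
  have hηa : η ≤ η₁ := (min_le_left _ _).trans (min_le_left _ _)
  have hηb : η ≤ η₂ := (min_le_left _ _).trans (min_le_right _ _)
  have hηc : η ≤ η₃ := min_le_right _ _
  -- a small positive point
  obtain ⟨x, hx, hxη, hfx, hFx⟩ : ∃ x, 0 < x ∧ x < η ∧ |f x| < η ∧ |Fm f x| < η := by
    obtain ⟨δ, hδ, h4⟩ := Metric.continuousAt_iff.1 (H.cont.continuousAt (x := 0)) (η / 2)
      (by linarith)
    have h5 : 0 < min (δ / 2) (η / 2) := lt_min (by linarith) (by linarith)
    have h6 := min_le_left (δ / 2) (η / 2)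
    have h7 := min_le_right (δ / 2) (η / 2)
    have h8 := h4 (x := min (δ / 2) (η / 2)) (by
      rw [Real.dist_eq, sub_zero, abs_of_pos h5]
      linarith)
    rw [Real.dist_eq, H.f0, sub_zero] at h8
    refine ⟨min (δ / 2) (η / 2), h5, by linarith, by linarith, ?_⟩
    rw [abs_lt] at h8 ⊢
    unfold Fm
    constructor <;> linarith [h8.1, h8.2]
  rw [abs_lt] at hfx hFx
  have hfxn := h1 x hx (by linarith)
  have hcomm := H.comm x
  rcases hFr with hFr | hFr <;> rcases hFl with hFl | hFl
  · exfalso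
    have a1 := hFr x hx (by linarith)
    have a2 := h1 (Fm f x) a1 (by linarith [hFx.2])
    have a3 := hFl (f x) (by linarith [hfx.1]) hfxn
    linarith
  · refine (H.con_global hη0 fun y hy hyη => ?_).linear
    rcases lt_or_gt_of_ne hy with h | h
    · rw [abs_of_neg h] at hyη
      exact ⟨mul_neg_of_neg_of_pos h (h2 y h (by linarith)),
        mul_pos_of_neg_of_neg h (hFl y (by linarith) h)⟩
    · rw [abs_of_pos h] at hyη
      exact ⟨mul_neg_of_pos_of_neg h (h1 y h (by linarith)), mul_pos h (hFr y h (by linarith))⟩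
  · refine (H.alt_global hη0 fun y hy hyη => ?_).linear
    rcases lt_or_gt_of_ne hy with h | h
    · rw [abs_of_neg h] at hyη
      exact mul_neg_of_neg_of_pos h (hFl y (by linarith) h)
    · rw [abs_of_pos h] at hyη
      exact mul_neg_of_pos_of_neg h (hFr y h (by linarith))
  · exfalso
    have a1 := hFr x hx (by linarith)
    have a2 := h2 (Fm f x) a1 (by linarith [hFx.1])
    have a3 := hFl (f x) (by linarith [hfx.1]) hfxn
    linarith

end Sol

/-- **Main theorem.** -/
theorem main (f : ℝ → ℝ) (hf : Continuous f) :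
    (∀ x, f (x + f x) = f x + f (f x)) ↔
      (∃ a : ℝ, ∀ x, f x = a * x) ∨
      ∃ a b : ℝ, 0 ≤ a ∧ 0 ≤ b ∧ ∀ x, f x = if 0 ≤ x then a * x else b * x := by
  constructor
  · intro h
    exact (Sol.mk hf h).classification
  · rintro (⟨a, h⟩ | ⟨a, b, ha, hb, h⟩) x
    · simp only [h]
      ring
    · rcases le_or_gt 0 x with hx | hx
      · have h1 : f x = a * x := by rw [h, if_pos hx]
        have h2 : 0 ≤ a * x := mul_nonneg ha hx
        rw [h1, h (a * x), if_pos h2, h, if_pos (by linarith)]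
        ring
      · have h1 : f x = b * x := by rw [h, if_neg (by linarith)]
        rw [h1]
        rcases eq_or_lt_of_le hb with hb0 | hb0
        · have h3 : f x = 0 := by rw [h1, ← hb0, zero_mul]
          have h4 : f 0 = 0 := by rw [h]; simp
          rw [← hb0, zero_mul, add_zero, h4, h3]
          simp
        · have h2 : b * x < 0 := mul_neg_of_pos_of_neg hb0 hx
          rw [h (b * x), if_neg (by linarith), h, if_neg (by linarith)]
          ring

end Pool.Agent.J4.H67.FE
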