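import Pool.Agent.J4.H67.FE.Core

set_option autoImplicit false

/-!
# Reductions to the expanding alternating case
-/

open Filter Topology

namespace Pool.Agent.J4.H67.FE

/-- a continuous solution -/
structure Sol (f : ℝ → ℝ) : Prop where
  cont : Continuous f
  eq : ∀ x, f (x + f x) = f x + f (f x)

namespace Sol

variable {f : ℝ → ℝ} (H : Sol f)
include H

lemma f0 : f 0 = 0 := map_zero' H.eq

lemma F0 : Fm f 0 = 0 := Fm_zero H.eq

lemma Fc : Continuous (Fm f) := Fm_cont H.cont

lemma comm (x : ℝ) : f (Fm f x) = Fm f (f x) := H.eq x

/-- the mirror image -/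
lemma mirror : Sol (fun x => -f (-x)) where
  cont := (H.cont.comp continuous_neg).neg
  eq := by
    intro x
    have h := H.eq (-x)
    have e1 : -(x + -f (-x)) = -x + f (-x) := by ring
    have e2 : -(-f (-x)) = f (-x) := by ring
    simp only [e1, e2]
    rw [h]
    ring

/-- `F^[n] (f x) = f (F^[n] x)` -/
lemma comm_iter (n : ℕ) (x : ℝ) : f ((Fm f)^[n] x) = (Fm f)^[n] (f x) := by
  induction n generalizing x with
  | zero => rfl
  | succ n ih => rw [Function.iterate_succ_apply, Function.iterate_succ_apply, ih, H.comm]

lemma comm_iter' (n : ℕ) (x : ℝ) : Fm f (f^[n] x) = f^[n] (Fm f x) := by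
  induction n with
  | zero => rfl
  | succ n ih => rw [Function.iterate_succ_apply', Function.iterate_succ_apply', ← H.comm, ih]

end Sol

/-! ### positive functions -/

/-- the alternating function made from a positive one -/
noncomputable def flip (f : ℝ → ℝ) (x : ℝ) : ℝ := if 0 ≤ x then -(x + f x) else -x + f (-x)

lemma Sol.linear_of_pos {f : ℝ → ℝ} (H : Sol f) (hp : ∀ x, 0 < x → 0 < f x) :
    ∃ a : ℝ, 0 < a ∧ ∀ x, 0 ≤ x → f x = a * x := by
  have h0 := H.f0
  have hA : Alt (flip f) := by
    refine ⟨?_, ?_, ?_⟩
    · unfold flip
      refine Continuous.if_le ?_ ?_ continuous_const continuous_id ?_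
      · exact (continuous_id.add H.cont).neg
      · exact continuous_neg.add (H.cont.comp continuous_neg)
      · intro x hx
        subst hx
        simp [h0]
    · intro x
      rcases lt_trichotomy x 0 with hx | hx | hx
      · have e1 : flip f x = -x + f (-x) := by
          unfold flip
          rw [if_neg (by linarith)]
        have p1 := hp (-x) (by linarith)
        have e2 : flip f (x + flip f x) = -(f (-x) + f (f (-x))) := by
          rw [e1]
          have : x + (-x + f (-x)) = f (-x) := by ring
          rw [this]
          unfold flip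
          rw [if_pos p1.le]
        have e3 : flip f (flip f x) = -((-x + f (-x)) + f (-x + f (-x))) := by
          rw [e1]
          unfold flip
          rw [if_pos (by linarith)]
        rw [e2, e3, e1, H.eq]
        ring
      · subst hx
        have : flip f 0 = 0 := by
          unfold flip
          simp [h0]
        simp [this]
      · have e1 : flip f x = -(x + f x) := by
          unfold flip
          rw [if_pos hx.le]
        have p1 := hp x hx
        have e2 : flip f (x + flip f x) = f x + f (f x) := by
          rw [e1]
          have : x + -(x + f x) = -f x := by ring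
          rw [this]
          unfold flip
          rw [if_neg (by linarith)]
          simp
        have e3 : flip f (flip f x) = (x + f x) + f (x + f x) := by
          rw [e1]
          unfold flip
          rw [if_neg (by linarith)]
          simp
        rw [e2, e3, e1, H.eq]
        ring
    · intro x hx
      rcases lt_or_gt_of_ne hx with h | h
      · have e1 : flip f x = -x + f (-x) := by
          unfold flip
          rw [if_neg (by linarith)]
        have p1 := hp (-x) (by linarith)
        rw [e1]
        have : x + (-x + f (-x)) = f (-x) := by ring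
        rw [this]
        exact mul_neg_of_neg_of_pos h p1
      · have e1 : flip f x = -(x + f x) := by
          unfold flip
          rw [if_pos h.le]
        have p1 := hp x h
        rw [e1]
        have : x + -(x + f x) = -f x := by ring
        rw [this]
        exact mul_neg_of_pos_of_neg h (by linarith)
  obtain ⟨a, ha⟩ := hA.linear
  have key : ∀ x, 0 ≤ x → f x = (-a - 1) * x := by
    intro x hx
    have := ha x
    unfold flip at this
    rw [if_pos hx] at this
    linarith
  refine ⟨-a - 1, ?_, key⟩
  have h1 := hp 1 one_pos
  rw [key 1 zero_le_one] at h1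
  linarith

/-! ### the contracting alternating case -/

/-- `f x` has the opposite sign and `x + f x` the same sign as `x` -/
structure Con (f : ℝ → ℝ) : Prop where
  sol : Sol f
  sf : ∀ x, x ≠ 0 → x * f x < 0
  sF : ∀ x, x ≠ 0 → 0 < x * (x + f x)

namespace Con

variable {f : ℝ → ℝ} (H : Con f)
include H

lemma F_pos {x : ℝ} (hx : 0 < x) : 0 < Fm f x := by
  have := H.sF x hx.ne'
  unfold Fm
  exact pos_of_mul_pos_of_pos_left' this hx
where
  pos_of_mul_pos_of_pos_left' {a b : ℝ} (h : 0 < a * b) (ha : 0 < a) : 0 < b := by
    by_contra hcon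
    push Not at hcon
    nlinarith

lemma F_neg {x : ℝ} (hx : x < 0) : Fm f x < 0 := by
  have := H.sF x hx.ne
  unfold Fm
  by_contra hcon
  push Not at hcon
  nlinarith

lemma f_neg {x : ℝ} (hx : 0 < x) : f x < 0 := by
  have := H.sf x hx.ne'
  by_contra hcon
  push Not at hcon
  nlinarith

lemma f_pos {x : ℝ} (hx : x < 0) : 0 < f x := by
  have := H.sf x hx.ne
  by_contra hcon
  push Not at hcon
  nlinarith

lemma f_ne {x : ℝ} (hx : x ≠ 0) : f x ≠ 0 := by
  intro h
  have := H.sf x hx
  rw [h] at this
  simp at this

lemma iter_pos {x : ℝ} (hx : 0 < x) (n : ℕ) : 0 < (Fm f)^[n] x := by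
  induction n with
  | zero => exact hx
  | succ n ih =>
    rw [Function.iterate_succ_apply']
    exact H.F_pos ih

lemma iter_neg {x : ℝ} (hx : x < 0) (n : ℕ) : (Fm f)^[n] x < 0 := by
  induction n with
  | zero => exact hx
  | succ n ih =>
    rw [Function.iterate_succ_apply']
    exact H.F_neg ih

/-- the iterates of `x + f x` tend to zero -/
lemma tendsto_iter (x : ℝ) : Tendsto (fun n => (Fm f)^[n] x) atTop (𝓝 0) := by
  have hlim : ∀ L : ℝ, Tendsto (fun n => (Fm f)^[n] x) atTop (𝓝 L) → L = 0 := by
    intro L hL
    have h1 : Tendsto (fun n => (Fm f)^[n + 1] x) atTop (𝓝 L) :=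
      hL.comp (tendsto_add_atTop_nat 1)
    have h2 : Tendsto (fun n => (Fm f)^[n + 1] x) atTop (𝓝 (Fm f L)) := by
      simp only [Function.iterate_succ_apply']
      exact (H.sol.Fc.tendsto L).comp hL
    have h3 := tendsto_nhds_unique h1 h2
    by_contra hne
    apply H.f_ne hne
    unfold Fm at h3
    linarith
  rcases lt_trichotomy x 0 with hx | hx | hx
  · have hmono : Monotone (fun n => (Fm f)^[n] x) := by
      refine monotone_nat_of_le_succ fun n => ?_
      simp only [Function.iterate_succ_apply']
      have := H.f_pos (H.iter_neg hx n)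
      unfold Fm at this ⊢
      linarith
    have hb : BddAbove (Set.range (fun n => (Fm f)^[n] x)) :=
      ⟨0, by rintro _ ⟨n, rfl⟩; exact (H.iter_neg hx n).le⟩
    have := tendsto_atTop_ciSup hmono hb
    rwa [hlim _ this] at this
  · subst hx
    have : ∀ n, (Fm f)^[n] 0 = 0 := fun n => by
      induction n with
      | zero => rfl
      | succ n ih => rw [Function.iterate_succ_apply', ih, H.sol.F0]
    simp only [this]
    exact tendsto_const_nhds
  · have hmono : Antitone (fun n => (Fm f)^[n] x) := by
      refine antitone_nat_of_succ_le fun n => ?_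
      simp only [Function.iterate_succ_apply']
      have := H.f_neg (H.iter_pos hx n)
      unfold Fm at this ⊢
      linarith
    have hb : BddBelow (Set.range (fun n => (Fm f)^[n] x)) :=
      ⟨0, by rintro _ ⟨n, rfl⟩; exact (H.iter_pos hx n).le⟩
    have := tendsto_atTop_ciInf hmono hb
    rwa [hlim _ this] at this

lemma inj : Function.Injective f := by
  intro x y hxy
  have key : ∀ n : ℕ, (Fm f)^[n] x - (Fm f)^[n] y = x - y := by
    intro n
    induction n with
    | zero => rfl
    | succ n ih =>
      rw [Function.iterate_succ_apply', Function.iterate_succ_apply']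
      have h1 : f ((Fm f)^[n] x) = f ((Fm f)^[n] y) := by
        rw [H.sol.comm_iter, H.sol.comm_iter, hxy]
      unfold Fm at h1 ih ⊢
      linarith
  have h1 := (H.tendsto_iter x).sub (H.tendsto_iter y)
  simp only [key] at h1
  have := tendsto_nhds_unique h1 tendsto_const_nhds
  linarith

lemma anti : StrictAnti f := by
  rcases H.sol.cont.strictMono_of_inj H.inj with h | h
  · have h1 := h (show (0 : ℝ) < 1 by norm_num)
    have h2 := H.f_neg (show (0 : ℝ) < 1 by norm_num)
    rw [H.sol.f0] at h1
    linarith
  · exact h

lemma tends_bot : Tendsto f atTop atBot := by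
  by_contra hcon
  -- `f` is bounded below
  have hb : ∃ B, ∀ x, B ≤ f x := by
    by_contra h
    push Not at h
    apply hcon
    refine tendsto_atTop_atBot.2 fun b => ?_
    obtain ⟨x, hx⟩ := h b
    exact ⟨x, fun y hy => (H.anti.antitone hy).trans hx.le⟩
  obtain ⟨B, hB⟩ := hb
  have hbdd : BddBelow (Set.range f) := ⟨B, by rintro _ ⟨x, rfl⟩; exact hB x⟩
  have hL := tendsto_atTop_ciInf H.anti.antitone hbdd
  set L := ⨅ i, f i with hLdef
  have hF : Tendsto (Fm f) atTop atTop := by
    unfold Fm
    exact tendsto_atTop_add_right_of_le _ B tendsto_id hB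
  have h1 : Tendsto (fun x => f (Fm f x)) atTop (𝓝 L) := hL.comp hF
  have h2 : Tendsto (fun x => f (Fm f x)) atTop (𝓝 (Fm f L)) := by
    simp only [H.sol.comm]
    exact (H.sol.Fc.tendsto L).comp hL
  have h3 := tendsto_nhds_unique h1 h2
  have h4 : f L = 0 := by
    unfold Fm at h3
    linarith
  have h5 : L = 0 := by
    by_contra hne
    exact H.f_ne hne h4
  have h6 : L ≤ f 1 := ciInf_le hbdd 1
  have h7 := H.f_neg (show (0 : ℝ) < 1 by norm_num)
  linarith

lemma mirror : Con (fun x => -f (-x)) where
  sol := H.sol.mirror
  sf := by
    intro x hx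
    have := H.sf (-x) (neg_ne_zero.2 hx)
    linarith
  sF := by
    intro x hx
    have := H.sF (-x) (neg_ne_zero.2 hx)
    linarith

lemma tends_top : Tendsto f atBot atTop := by
  have h := H.mirror.tends_bot
  have h1 : Tendsto (fun x : ℝ => -(-f (-(-x)))) atBot atTop :=
    tendsto_neg_atBot_atTop.comp (h.comp tendsto_neg_atBot_atTop)
  simpa using h1

lemma surj : Function.Surjective f := H.sol.cont.surjective' H.tends_top H.tends_bot

theorem linear : ∃ a : ℝ, ∀ x, f x = a * x := by
  -- the inverse function
  let e : ℝ ≃ ℝ := Equiv.ofBijective f ⟨H.inj, H.surj⟩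
  have he : ∀ x, e x = f x := fun x => rfl
  have hanti : StrictAnti e.symm := by
    intro x y hxy
    by_contra hcon
    push Not at hcon
    have h1 := H.anti.antitone hcon
    have h2 : f (e.symm x) = x := e.apply_symm_apply x
    have h3 : f (e.symm y) = y := e.apply_symm_apply y
    rw [h2, h3] at h1
    linarith
  have hcont : Continuous e.symm := by
    have : Continuous (fun x => -e.symm x) := by
      have hm : Monotone (fun x => -e.symm x) := fun x y hxy => by
        have := hanti.antitone hxy
        simp only
        linarith
      refine hm.continuous_of_surjective fun y => ⟨e (-y), by simp⟩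
    have h := this.neg
    have h' : (fun x => -(-e.symm x)) = fun x => e.symm x := by
      funext x
      ring
    have h'' : Continuous (fun x => -(-e.symm x)) := h
    rw [h'] at h''
    exact h''
  have hA : Alt (fun y => e.symm y) := by
    refine ⟨hcont, ?_, ?_⟩
    · intro y
      obtain ⟨x, rfl⟩ := e.surjective y
      obtain ⟨w, rfl⟩ := e.surjective x
      simp only [Equiv.symm_apply_apply]
      have h1 : e (e w) + e w = e (w + e w) := by
        simp only [he]
        rw [H.sol.eq]
        ring
      rw [h1, Equiv.symm_apply_apply]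
      ring
    · intro y hy
      obtain ⟨x, rfl⟩ := e.surjective y
      have hs : e.symm (e x) = x := e.symm_apply_apply x
      simp only [hs]
      rw [he] at hy ⊢
      have hx : x ≠ 0 := by
        rintro rfl
        exact hy H.sol.f0
      have h1 := H.sf x hx
      have h2 := H.sF x hx
      have h3 : 0 < x ^ 2 := by positivity
      have h4 : x ^ 2 * (f x * (f x + x)) < 0 := by
        have : x ^ 2 * (f x * (f x + x)) = (x * f x) * (x * (x + f x)) := by ring
        rw [this]
        exact mul_neg_of_neg_of_pos h1 h2
      by_contra hcon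
      push Not at hcon
      have := mul_nonneg h3.le hcon
      linarith
  obtain ⟨a, ha⟩ := hA.linear
  refine ⟨a⁻¹, fun x => ?_⟩
  have h1 := ha (f x)
  have h2 : e.symm (f x) = x := e.symm_apply_apply x
  rw [h2] at h1
  by_cases ha0 : a = 0
  · subst ha0
    have h3 := ha (f 1)
    have h4 : e.symm (f 1) = 1 := e.symm_apply_apply 1
    rw [h4] at h3
    simp at h3
  · field_simp
    linarith

end Con

end Pool.Agent.J4.H67.FE
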